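import Mathlib
import Pool.Agent.Work.MP_f82ddf_nt.Krull

open MvPolynomial

namespace MP501976

/-- Fewer equations than unknowns, all without constant term: there is a nonzero solution. -/
theorem exists_ne_zero_fin {k : Type*} [Field k] [IsAlgClosed k] {m : ℕ}
    (J : Finset (MvPolynomial (Fin m) k)) (h0 : ∀ G ∈ J, aeval (0 : Fin m → k) G = 0)
    (hcard : J.card < m) : ∃ z : Fin m → k, z ≠ 0 ∧ ∀ G ∈ J, aeval z G = 0 := by
  classical
  by_contra hcon
  push Not at hcon
  have honly : ∀ z : Fin m → k, (∀ G ∈ J, aeval z G = 0) → z = 0 := by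
    intro z hz
    by_contra hne
    obtain ⟨G, hG, hG0⟩ := hcon z hne
    exact hG0 (hz G hG)
  have hle : Ideal.span (J : Set (MvPolynomial (Fin m) k)) ≤
      vanishingIdeal k {(0 : Fin m → k)} := by
    rw [Ideal.span_le]
    intro G hG
    rw [SetLike.mem_coe, mem_vanishingIdeal_singleton_iff]
    exact h0 G hG
  have hprime : (vanishingIdeal k ({(0 : Fin m → k)} : Set (Fin m → k))).IsPrime :=
    inferInstance
  obtain ⟨q, hq, hqz⟩ := Ideal.exists_minimalPrimes_le hle
  have hqprime : q.IsPrime := hq.1.1
  have hJq : Ideal.span (J : Set (MvPolynomial (Fin m) k)) ≤ q := hq.1.2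
  have hheight : q.height ≤ J.card := Ideal.height_le_card_of_mem_minimalPrimes_span_finset hq
  have hXj : ∀ j : Fin m, (X j : MvPolynomial (Fin m) k) ∈ q := by
    intro j
    have h1 : (X j : MvPolynomial (Fin m) k) ∈
        vanishingIdeal k (zeroLocus k (Ideal.span (J : Set (MvPolynomial (Fin m) k)))) := by
      rw [mem_vanishingIdeal_iff]
      intro c hc
      have hc0 : c = 0 := by
        apply honly
        intro G hG
        rw [mem_zeroLocus_iff] at hc
        exact hc G (Ideal.subset_span hG)
      rw [hc0, aeval_X]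
      rfl
    rw [vanishingIdeal_zeroLocus_eq_radical] at h1
    have : (Ideal.span (J : Set (MvPolynomial (Fin m) k))).radical ≤ q :=
      (Ideal.IsPrime.radical_le_iff hqprime).mpr hJq
    exact this h1
  have hTq : Ideal.span ((X : Fin m → MvPolynomial (Fin m) k) ''
      ((Finset.univ : Finset (Fin m)) : Set (Fin m))) ≤ q := by
    rw [Ideal.span_le]
    rintro _ ⟨j, _, rfl⟩
    exact hXj j
  have hT := Pool.Agent.Work.MP_f82ddf_nt.card_le_height (k := k) (Finset.univ : Finset (Fin m))
  have h1 := (hT.trans (Ideal.height_mono hTq)).trans hheight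
  have h2 : (Finset.univ : Finset (Fin m)).card ≤ J.card := by exact_mod_cast h1
  rw [Finset.card_univ, Fintype.card_fin] at h2
  omega

/-- Fewer equations than unknowns, all without constant term: there is a nonzero solution. -/
theorem exists_ne_zero_common_zero {k : Type*} [Field k] [IsAlgClosed k] {σ ι : Type*}
    [Fintype σ] [Fintype ι] (f : ι → MvPolynomial σ k)
    (h0 : ∀ i, eval (0 : σ → k) (f i) = 0)
    (hcard : Fintype.card ι < Fintype.card σ) :
    ∃ z : σ → k, z ≠ 0 ∧ ∀ i, eval z (f i) = 0 := by
  classical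
  set e : σ ≃ Fin (Fintype.card σ) := Fintype.equivFin σ with he
  obtain ⟨z, hz0, hz⟩ := exists_ne_zero_fin (k := k) (m := Fintype.card σ)
    (Finset.univ.image fun i => rename e (f i))
    (by
      intro G hG
      rw [Finset.mem_image] at hG
      obtain ⟨i, _, rfl⟩ := hG
      rw [aeval_rename]
      have := h0 i
      rw [← coe_aeval_eq_eval] at this
      exact this)
    (lt_of_le_of_lt Finset.card_image_le (by rwa [Finset.card_univ]))
  refine ⟨z ∘ e, ?_, ?_⟩
  · intro h
    apply hz0
    funext j
    have := congrFun h (e.symm j)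
    simpa using this
  · intro i
    have := hz (rename e (f i)) (Finset.mem_image_of_mem _ (Finset.mem_univ i))
    rw [aeval_rename] at this
    rw [← coe_aeval_eq_eval]
    exact this

end MP501976
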