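import Mathlib
import Pool.Agent.Work.MP_501976_ag_helper95.Krull

open Polynomial

namespace MP501976

/-! ### Weighted degrees and polynomial curves -/

theorem aeval_natDegree_le_weighted {R : Type*} [CommRing R] {N : ℕ} (wt : Fin N → ℕ)
    (f : Fin N → R[X]) (hf : ∀ i, (f i).natDegree ≤ wt i) (H : MvPolynomial (Fin N) R) {d : ℕ}
    (hH : MvPolynomial.weightedTotalDegree wt H ≤ d) :
    (MvPolynomial.aeval f H).natDegree ≤ d := by
  rw [MvPolynomial.aeval_def, MvPolynomial.eval₂]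
  refine (Polynomial.natDegree_sum_le _ _).trans (Finset.sup_le ?_)
  intro e he
  simp_rw [Function.comp_apply, ← Polynomial.C_eq_algebraMap]
  refine (Polynomial.natDegree_C_mul_le _ _).trans ?_
  refine (Polynomial.natDegree_prod_le _ _).trans ?_
  have h1 : ∑ i ∈ e.support, ((f i) ^ (e i)).natDegree ≤ ∑ i ∈ e.support, e i * wt i := by
    refine Finset.sum_le_sum fun i _ => ?_
    exact Polynomial.natDegree_pow_le.trans (Nat.mul_le_mul_left _ (hf i))
  have h2 : ∑ i ∈ e.support, e i * wt i = Finsupp.weight wt e := by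
    rw [Finsupp.weight_apply, Finsupp.sum]
    simp
  exact (h1.trans_eq h2).trans ((MvPolynomial.le_weightedTotalDegree wt he).trans hH)

theorem weightedTotalDegree_map_le {R S : Type*} [CommRing R] [CommRing S] (φ : R →+* S) {N : ℕ}
    (wt : Fin N → ℕ) (H : MvPolynomial (Fin N) R) :
    MvPolynomial.weightedTotalDegree wt (MvPolynomial.map φ H) ≤
      MvPolynomial.weightedTotalDegree wt H :=
  Finset.sup_mono (MvPolynomial.support_map_subset φ H)

theorem aeval_eval_zero {R : Type*} [CommRing R] {N : ℕ} (f : Fin N → R[X])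
    (H : MvPolynomial (Fin N) R) :
    (MvPolynomial.aeval f H).coeff 0 = MvPolynomial.eval (fun i => (f i).coeff 0) H := by
  rw [coeff_zero_eq_eval_zero, ← coe_evalRingHom, ← MvPolynomial.coe_aeval_eq_eval]
  have : ((evalRingHom (0 : R)).comp (MvPolynomial.aeval f :
      MvPolynomial (Fin N) R →ₐ[R] R[X]).toRingHom) =
      (MvPolynomial.aeval (fun i => (f i).coeff 0) :
        MvPolynomial (Fin N) R →ₐ[R] R).toRingHom := by
    apply MvPolynomial.ringHom_ext
    · intro r
      simp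
    · intro i
      simp [coeff_zero_eq_eval_zero]
  exact congrArg (fun f => f H) this

theorem aeval_map {R S : Type*} [CommRing R] [CommRing S] (φ : R →+* S) {N : ℕ}
    (f : Fin N → R[X]) (H : MvPolynomial (Fin N) R) :
    (MvPolynomial.aeval f H).map φ =
      MvPolynomial.aeval (fun i => (f i).map φ) (MvPolynomial.map φ H) := by
  have : ((mapRingHom φ).comp (MvPolynomial.aeval f :
      MvPolynomial (Fin N) R →ₐ[R] R[X]).toRingHom) =
      ((MvPolynomial.aeval (fun i => (f i).map φ) :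
        MvPolynomial (Fin N) S →ₐ[S] S[X]).toRingHom).comp (MvPolynomial.map φ) := by
    apply MvPolynomial.ringHom_ext
    · intro r
      simp
    · intro i
      simp
  exact congrArg (fun f => f H) this

theorem aeval_const {R : Type*} [CommRing R] {N : ℕ} (p : Fin N → R)
    (H : MvPolynomial (Fin N) R) :
    MvPolynomial.aeval (fun i => (C (p i) : R[X])) H = C (MvPolynomial.eval p H) := by
  rw [← MvPolynomial.coe_aeval_eq_eval]
  exact MvPolynomial.aeval_algebraMap_apply (Polynomial R) p H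

/-! ### Polynomials with given constant coefficient -/

/-- The polynomial with constant coefficient `a` and further coefficients `u`. -/
noncomputable def ser {R : Type*} [CommRing R] (a : R) {n : ℕ} (u : Fin n → R) : R[X] :=
  C a + ∑ l : Fin n, C (u l) * X ^ ((l : ℕ) + 1)

theorem ser_map {R S : Type*} [CommRing R] [CommRing S] (f : R →+* S) (a : R) {n : ℕ}
    (u : Fin n → R) : (ser a u).map f = ser (f a) (fun l => f (u l)) := by
  simp [ser, Polynomial.map_sum]

theorem ser_natDegree_le {R : Type*} [CommRing R] (a : R) {n : ℕ} (u : Fin n → R) :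
    (ser a u).natDegree ≤ n := by
  refine (natDegree_add_le _ _).trans (max_le (by simp) ?_)
  refine natDegree_sum_le_of_forall_le _ _ ?_
  intro l _
  refine (natDegree_C_mul_X_pow_le _ _).trans ?_
  have := l.isLt
  omega

theorem ser_coeff_zero {R : Type*} [CommRing R] (a : R) {n : ℕ} (u : Fin n → R) :
    (ser a u).coeff 0 = a := by
  simp [ser, coeff_zero_eq_eval_zero, eval_finsetSum]

theorem ser_coeff_succ {R : Type*} [CommRing R] (a : R) {n : ℕ} (u : Fin n → R) (l : Fin n) :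
    (ser a u).coeff ((l : ℕ) + 1) = u l := by
  classical
  rw [ser, coeff_add, coeff_C_succ, zero_add, finsetSum_coeff]
  rw [Finset.sum_eq_single l]
  · simp
  · intro b _ hb
    rw [coeff_C_mul_X_pow, if_neg]
    intro h
    apply hb
    ext
    omega
  · intro h
    exact absurd (Finset.mem_univ l) h

theorem ser_zero {R : Type*} [CommRing R] (a : R) {n : ℕ} :
    ser a (fun _ : Fin n => (0 : R)) = C a := by
  simp [ser]

theorem ser_eq_zero_of_natDegree {R : Type*} [CommRing R] (a : R) {n : ℕ} (u : Fin n → R)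
    (h : (ser a u).natDegree = 0) (l : Fin n) : u l = 0 := by
  rw [← ser_coeff_succ a u l]
  apply coeff_eq_zero_of_natDegree_lt
  omega

/-! ### The count of constants -/

/-- The abstract form of the count of constants. -/
theorem exists_curve_through {Ω : Type*} [Field Ω] [IsAlgClosed Ω] {N : ℕ} (wt : Fin N → ℕ)
    (p : Fin N → Ω)
    {J τ κ : Type*} [Fintype J] [Fintype τ] [Fintype κ]
    (extra : κ → (Σ i : Fin N, Fin (wt i)))
    (H : J → MvPolynomial (Fin N) Ω) (d : J → ℕ)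
    (hH : ∀ j, MvPolynomial.weightedTotalDegree wt (H j) ≤ d j)
    (S : J → (MvPolynomial ((Σ i : Fin N, Fin (wt i)) ⊕ τ) Ω)[X])
    (hS : ∀ j, ∀ z : (Σ i : Fin N, Fin (wt i)) ⊕ τ → Ω,
      ((S j).map (MvPolynomial.eval z)).natDegree ≤ d j)
    (hS0 : ∀ j, ∀ z : (Σ i : Fin N, Fin (wt i)) ⊕ τ → Ω,
      ((S j).map (MvPolynomial.eval z)).coeff 0 = MvPolynomial.eval p (H j))
    (hS1 : ∀ j, (S j).map (MvPolynomial.eval (0 : (Σ i : Fin N, Fin (wt i)) ⊕ τ → Ω)) =
      C (MvPolynomial.eval p (H j)))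
    (hcard : ∑ j, d j + Fintype.card κ < ∑ i, wt i + Fintype.card τ) :
    ∃ z : (Σ i : Fin N, Fin (wt i)) ⊕ τ → Ω, z ≠ 0 ∧ (∀ a, z (Sum.inl (extra a)) = 0) ∧
      ∀ j, MvPolynomial.aeval (fun i => ser (p i) fun l => z (Sum.inl ⟨i, l⟩)) (H j) =
      (S j).map (MvPolynomial.eval z) := by
  classical
  set E : J → (MvPolynomial ((Σ i : Fin N, Fin (wt i)) ⊕ τ) Ω)[X] := fun j =>
    MvPolynomial.aeval (fun i => ser (MvPolynomial.C (p i))
      fun l => (MvPolynomial.X (Sum.inl ⟨i, l⟩) :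
        MvPolynomial ((Σ i : Fin N, Fin (wt i)) ⊕ τ) Ω))
      (MvPolynomial.map (MvPolynomial.C :
        Ω →+* MvPolynomial ((Σ i : Fin N, Fin (wt i)) ⊕ τ) Ω) (H j)) - S j with hE
  have hEmap : ∀ j (z : (Σ i : Fin N, Fin (wt i)) ⊕ τ → Ω), (E j).map (MvPolynomial.eval z) =
      MvPolynomial.aeval (fun i => ser (p i) fun l => z (Sum.inl ⟨i, l⟩)) (H j) -
        (S j).map (MvPolynomial.eval z) := by
    intro j z
    rw [hE]
    simp only [Polynomial.map_sub]
    rw [aeval_map, MvPolynomial.map_map]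
    congr 1
    have h1 : (MvPolynomial.eval z).comp
        (MvPolynomial.C : Ω →+* MvPolynomial ((Σ i : Fin N, Fin (wt i)) ⊕ τ) Ω) =
        RingHom.id Ω := by
      ext r
      simp
    rw [h1, MvPolynomial.map_id]
    simp only [ser_map, MvPolynomial.eval_C, MvPolynomial.eval_X]
  obtain ⟨z, hz0, hz⟩ := exists_ne_zero_common_zero (k := Ω)
    (σ := (Σ i : Fin N, Fin (wt i)) ⊕ τ) (ι := (Σ j : J, Fin (d j)) ⊕ κ)
    (Sum.elim (fun i => (E i.1).coeff (i.2 + 1)) fun a => MvPolynomial.X (Sum.inl (extra a)))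
    (by
      rintro (i | a)
      · rw [Sum.elim_inl, ← coeff_map, hEmap, hS1]
        simp only [Pi.zero_apply, ser_zero, aeval_const, sub_self, coeff_zero]
      · rw [Sum.elim_inr, MvPolynomial.eval_X]
        rfl)
    (by
      rw [Fintype.card_sum, Fintype.card_sigma, Fintype.card_sum, Fintype.card_sigma]
      simpa using hcard)
  refine ⟨z, hz0, ?_, ?_⟩
  · intro a
    have := hz (Sum.inr a)
    rwa [Sum.elim_inr, MvPolynomial.eval_X] at this
  intro j
  rw [← sub_eq_zero, ← hEmap]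
  ext n
  rw [coeff_zero]
  rcases Nat.eq_zero_or_pos n with rfl | hn
  · rw [hEmap, coeff_sub, hS0, aeval_eval_zero]
    simp only [ser_coeff_zero, sub_self]
  · by_cases hnd : n ≤ d j
    · have := hz (Sum.inl ⟨j, ⟨n - 1, by omega⟩⟩)
      rw [coeff_map]
      simp only [Sum.elim_inl] at this
      rwa [Nat.sub_add_cancel hn] at this
    · rw [hEmap]
      apply coeff_eq_zero_of_natDegree_lt
      refine lt_of_le_of_lt (natDegree_sub_le _ _) ?_
      refine lt_of_le_of_lt (max_le ?_ (hS j z)) (not_le.mp hnd)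
      exact aeval_natDegree_le_weighted wt _ (fun i => ser_natDegree_le _ _) _ (hH j)

/-- There is a nonconstant polynomial curve through `p`, of degree at most `wt i` in the `i`-th
coordinate, on which the `G j` vanish, and on which `F₀` and the `F i` are powers up to
constants and up to a few factors of small degree. -/
theorem exists_good_curve {Ω : Type*} [Field Ω] [IsAlgClosed Ω] {N c r : ℕ} (wt : Fin N → ℕ)
    {κ : Type*} [Fintype κ] (extra : κ → (Σ i : Fin N, Fin (wt i)))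
    (p : Fin N → Ω)
    (G : Fin c → MvPolynomial (Fin N) Ω) (F₀ : MvPolynomial (Fin N) Ω)
    (F : Fin r → MvPolynomial (Fin N) Ω) (e m : Fin r → ℕ) (e₀ n₀ μ d₁ d₂ : ℕ)
    (he₀ : 0 < e₀) (he : ∀ i, 0 < e i) (hμ : 0 < μ)
    (hG : ∀ j, MvPolynomial.eval p (G j) = 0) (hF₀ : MvPolynomial.eval p F₀ ≠ 0)
    (hF : ∀ i, MvPolynomial.eval p (F i) ≠ 0)
    (hm₀ : MvPolynomial.weightedTotalDegree wt F₀ ≤ e₀ * n₀ + μ * d₁ + 2 * (μ * d₂))
    (hm : ∀ i, MvPolynomial.weightedTotalDegree wt (F i) ≤ e i * m i)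
    (hcard : ∑ j, MvPolynomial.weightedTotalDegree wt (G j) +
      (e₀ * n₀ + μ * d₁ + 2 * (μ * d₂)) + ∑ i, e i * m i + Fintype.card κ <
        ∑ i, wt i + (n₀ + d₁ + d₂) + ∑ i, m i) :
    ∃ f : Fin N → Polynomial Ω, (∀ i, (f i).coeff 0 = p i) ∧ (∀ i, (f i).natDegree ≤ wt i) ∧
      (∀ a, (f (extra a).1).coeff ((extra a).2 + 1) = 0) ∧ (∃ i, (f i).natDegree ≠ 0) ∧
      (∀ j, MvPolynomial.aeval f (G j) = 0) ∧
      (∃ g h₁ h₂ : Polynomial Ω, h₁.coeff 0 = 1 ∧ h₂.coeff 0 = 1 ∧
        h₁.natDegree ≤ d₁ ∧ h₂.natDegree ≤ d₂ ∧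
        MvPolynomial.aeval f F₀ =
          C (MvPolynomial.eval p F₀) * (g ^ e₀ * (h₁ * h₂ ^ 2) ^ μ)) ∧
      ∀ i, ∃ q : Polynomial Ω,
        MvPolynomial.aeval f (F i) = C (MvPolynomial.eval p (F i)) * q ^ (e i) := by
  classical
  let τ := (Σ i : Fin r, Fin (m i)) ⊕ (Fin n₀ ⊕ (Fin d₁ ⊕ Fin d₂))
  let U := (Σ i : Fin N, Fin (wt i)) ⊕ τ
  let R := MvPolynomial U Ω
  let J := Fin c ⊕ (Fin r ⊕ Unit)
  let D := e₀ * n₀ + μ * d₁ + 2 * (μ * d₂)
  let H : J → MvPolynomial (Fin N) Ω := Sum.elim G (Sum.elim F fun _ => F₀)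
  let d : J → ℕ := Sum.elim (fun j => MvPolynomial.weightedTotalDegree wt (G j))
    (Sum.elim (fun i => e i * m i) fun _ => D)
  let S : J → R[X] := Sum.elim (fun _ => 0)
    (Sum.elim (fun i => C (MvPolynomial.C (MvPolynomial.eval p (F i))) *
      (ser 1 fun l : Fin (m i) => (MvPolynomial.X (Sum.inr (Sum.inl ⟨i, l⟩)) : R)) ^ (e i))
      fun _ => C (MvPolynomial.C (MvPolynomial.eval p F₀)) *
        ((ser 1 fun l : Fin n₀ =>
          (MvPolynomial.X (Sum.inr (Sum.inr (Sum.inl l))) : R)) ^ e₀ *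
        ((ser 1 fun l : Fin d₁ =>
          (MvPolynomial.X (Sum.inr (Sum.inr (Sum.inr (Sum.inl l)))) : R)) *
        (ser 1 fun l : Fin d₂ =>
          (MvPolynomial.X (Sum.inr (Sum.inr (Sum.inr (Sum.inr l)))) : R)) ^ 2) ^ μ))
  have hSmap1 : ∀ (z : U → Ω) (i : Fin r),
      (S (Sum.inr (Sum.inl i))).map (MvPolynomial.eval z) =
        C (MvPolynomial.eval p (F i)) *
          (ser 1 fun l : Fin (m i) => z (Sum.inr (Sum.inl ⟨i, l⟩))) ^ (e i) := by
    intro z i
    simp only [S, Sum.elim_inr, Sum.elim_inl, Polynomial.map_mul, Polynomial.map_pow, ser_map,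
      Polynomial.map_C, MvPolynomial.eval_C, MvPolynomial.eval_X, map_one]
  have hSmap2 : ∀ (z : U → Ω) (u : Unit),
      (S (Sum.inr (Sum.inr u))).map (MvPolynomial.eval z) =
        C (MvPolynomial.eval p F₀) *
        ((ser 1 fun l : Fin n₀ => z (Sum.inr (Sum.inr (Sum.inl l)))) ^ e₀ *
        ((ser 1 fun l : Fin d₁ => z (Sum.inr (Sum.inr (Sum.inr (Sum.inl l))))) *
        (ser 1 fun l : Fin d₂ => z (Sum.inr (Sum.inr (Sum.inr (Sum.inr l))))) ^ 2) ^ μ) := by
    intro z u
    simp only [S, Sum.elim_inr, Polynomial.map_mul, Polynomial.map_pow, ser_map,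
      Polynomial.map_C, MvPolynomial.eval_C, MvPolynomial.eval_X, map_one]
  have c1 : ∀ j, MvPolynomial.weightedTotalDegree wt (H j) ≤ d j := by
    rintro (j | i | u)
    · exact le_rfl
    · exact hm i
    · exact hm₀
  have c2 : ∀ j, ∀ z : U → Ω, ((S j).map (MvPolynomial.eval z)).natDegree ≤ d j := by
    rintro (j | i | u) z
    · simp [S]
    · rw [hSmap1]
      refine (natDegree_C_mul_le _ _).trans (natDegree_pow_le.trans ?_)
      exact Nat.mul_le_mul_left (e i) (ser_natDegree_le _ _)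
    · rw [hSmap2]
      refine (natDegree_C_mul_le _ _).trans ?_
      have a0 : ((ser 1 fun l : Fin n₀ => z (Sum.inr (Sum.inr (Sum.inl l)))) ^ e₀).natDegree ≤
          e₀ * n₀ := natDegree_pow_le.trans (Nat.mul_le_mul_left e₀ (ser_natDegree_le _ _))
      have a1 := ser_natDegree_le (1 : Ω) fun l : Fin d₁ =>
        z (Sum.inr (Sum.inr (Sum.inr (Sum.inl l))))
      have a2 : ((ser 1 fun l : Fin d₂ =>
          z (Sum.inr (Sum.inr (Sum.inr (Sum.inr l))))) ^ 2).natDegree ≤
          2 * d₂ := natDegree_pow_le.trans (Nat.mul_le_mul_left 2 (ser_natDegree_le _ _))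
      have b1 := natDegree_mul_le (p := (ser 1 fun l : Fin d₁ =>
        z (Sum.inr (Sum.inr (Sum.inr (Sum.inl l)))))) (q := (ser 1 fun l : Fin d₂ =>
          z (Sum.inr (Sum.inr (Sum.inr (Sum.inr l))))) ^ 2)
      have b2 : (((ser 1 fun l : Fin d₁ =>
        z (Sum.inr (Sum.inr (Sum.inr (Sum.inl l))))) * (ser 1 fun l : Fin d₂ =>
          z (Sum.inr (Sum.inr (Sum.inr (Sum.inr l))))) ^ 2) ^ μ).natDegree ≤
          μ * (d₁ + 2 * d₂) :=
        natDegree_pow_le.trans (Nat.mul_le_mul_left μ (b1.trans (Nat.add_le_add a1 a2)))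
      refine natDegree_mul_le.trans ((Nat.add_le_add a0 b2).trans (le_of_eq ?_))
      simp only [d, D, Sum.elim_inr]
      ring
  have c3 : ∀ j, ∀ z : U → Ω,
      ((S j).map (MvPolynomial.eval z)).coeff 0 = MvPolynomial.eval p (H j) := by
    rintro (j | i | u) z
    · simp [S, H, hG]
    · rw [hSmap1]
      simp [H, coeff_zero_eq_eval_zero, ser, eval_finsetSum]
    · rw [hSmap2]
      simp [H, coeff_zero_eq_eval_zero, ser, eval_finsetSum]
  have c4 : ∀ j, (S j).map (MvPolynomial.eval (0 : U → Ω)) =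
      C (MvPolynomial.eval p (H j)) := by
    rintro (j | i | u)
    · simp [S, H, hG]
    · rw [hSmap1]
      simp only [Pi.zero_apply, ser_zero]
      simp [H]
    · rw [hSmap2]
      simp only [Pi.zero_apply, ser_zero]
      simp [H]
  have c5 : ∑ j, d j + Fintype.card κ < ∑ i, wt i + Fintype.card τ := by
    have h5 : ∑ j, d j = ∑ j, MvPolynomial.weightedTotalDegree wt (G j) +
        (∑ i, e i * m i + D) := by
      simp only [J, d, Fintype.sum_sum_type, Sum.elim_inl, Sum.elim_inr,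
        Finset.univ_unique, Finset.sum_singleton]
    rw [h5]
    simp only [τ, D, Fintype.card_sum, Fintype.card_sigma, Fintype.card_fin]
    omega
  obtain ⟨z, hz0, hze, hz⟩ := exists_curve_through (Ω := Ω) wt p (J := J) (τ := τ) extra H d
    c1 S c2 c3 c4 c5
  refine ⟨fun i => ser (p i) fun l => z (Sum.inl ⟨i, l⟩), fun i => ser_coeff_zero _ _,
    fun i => ser_natDegree_le _ _, ?_, ?_, ?_, ?_, ?_⟩
  · intro a
    rw [ser_coeff_succ]
    exact hze a
  · by_contra hcon
    push Not at hcon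
    apply hz0
    have hv : ∀ (i : Fin N) (l : Fin (wt i)), z (Sum.inl ⟨i, l⟩) = 0 := fun i l =>
      ser_eq_zero_of_natDegree (p i) (fun l => z (Sum.inl ⟨i, l⟩)) (hcon i) l
    have hline : ∀ A : MvPolynomial (Fin N) Ω,
        MvPolynomial.aeval (fun i => ser (p i) fun l => z (Sum.inl ⟨i, l⟩)) A =
        C (MvPolynomial.eval p A) := by
      intro A
      simp only [hv, ser_zero, aeval_const]
    have key2 := hz (Sum.inr (Sum.inr ()))
    rw [hSmap2, hline] at key2
    simp only [H, Sum.elim_inr] at key2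
    have hc : (C (MvPolynomial.eval p F₀) : Polynomial Ω) ≠ 0 := C_ne_zero.mpr hF₀
    have key3 : (1 : Polynomial Ω) =
        ((ser 1 fun l : Fin n₀ => z (Sum.inr (Sum.inr (Sum.inl l)))) ^ e₀ *
        ((ser 1 fun l : Fin d₁ => z (Sum.inr (Sum.inr (Sum.inr (Sum.inl l))))) *
        (ser 1 fun l : Fin d₂ => z (Sum.inr (Sum.inr (Sum.inr (Sum.inr l))))) ^ 2) ^ μ) := by
      apply mul_left_cancel₀ hc
      rw [mul_one]
      exact key2
    have hunit : IsUnit ((ser 1 fun l : Fin n₀ => z (Sum.inr (Sum.inr (Sum.inl l)))) ^ e₀ *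
        ((ser 1 fun l : Fin d₁ => z (Sum.inr (Sum.inr (Sum.inr (Sum.inl l))))) *
        (ser 1 fun l : Fin d₂ => z (Sum.inr (Sum.inr (Sum.inr (Sum.inr l))))) ^ 2) ^ μ) := by
      rw [← key3]; exact isUnit_one
    rw [IsUnit.mul_iff, isUnit_pow_iff he₀.ne', isUnit_pow_iff hμ.ne', IsUnit.mul_iff,
      isUnit_pow_iff two_ne_zero] at hunit
    obtain ⟨u0, u1, u2⟩ := hunit
    funext x
    rcases x with ⟨i, l⟩ | ⟨i, l⟩ | l | l | l
    · exact hv i l
    · have e1 := hz (Sum.inr (Sum.inl i))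
      rw [hSmap1, hline] at e1
      simp only [H, Sum.elim_inr, Sum.elim_inl] at e1
      have e2 : (1 : Polynomial Ω) =
          (ser 1 fun l : Fin (m i) => z (Sum.inr (Sum.inl ⟨i, l⟩))) ^ (e i) := by
        have hc : (C (MvPolynomial.eval p (F i)) : Polynomial Ω) ≠ 0 := C_ne_zero.mpr (hF i)
        apply mul_left_cancel₀ hc
        rw [mul_one]
        exact e1
      have e3 : IsUnit ((ser (1 : Ω) fun l : Fin (m i) =>
          z (Sum.inr (Sum.inl ⟨i, l⟩))) ^ (e i)) := by
        rw [← e2]; exact isUnit_one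
      rw [isUnit_pow_iff (he i).ne'] at e3
      exact ser_eq_zero_of_natDegree _ _ (natDegree_eq_zero_of_isUnit e3) l
    · exact ser_eq_zero_of_natDegree _ _ (natDegree_eq_zero_of_isUnit u0) l
    · exact ser_eq_zero_of_natDegree _ _ (natDegree_eq_zero_of_isUnit u1) l
    · exact ser_eq_zero_of_natDegree _ _ (natDegree_eq_zero_of_isUnit u2) l
  · intro j
    have := hz (Sum.inl j)
    simpa [H, S] using this
  · have := hz (Sum.inr (Sum.inr ()))
    rw [hSmap2] at this
    exact ⟨_, _, _, ser_coeff_zero _ _, ser_coeff_zero _ _,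
      ser_natDegree_le _ _, ser_natDegree_le _ _, this⟩
  · intro i
    have := hz (Sum.inr (Sum.inl i))
    rw [hSmap1] at this
    exact ⟨_, this⟩

end MP501976
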