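import Mathlib
import Pool.Agent.Work.MP_501976_ag_helper95.Solve

open Polynomial

namespace MP501976

/-- The extension of a parametrisation to a Kummer tower. -/
theorem exists_embedding {k L K M : Type*} [Field k] [Field L] [Field K] [Field M]
    [Algebra k L] [Algebra K M] {N : ℕ} {ι' : Type*} (x : Fin N → L) (w : ι' → L) (e : ι' → ℕ)
    (he : ∀ i, 0 < e i) (hζ : ∀ i, ∃ ζ : M, IsPrimitiveRoot ζ (e i))
    (F : ι' → MvPolynomial (Fin N) k) (hw : ∀ i, w i ^ e i = MvPolynomial.aeval x (F i))
    (hgen : IntermediateField.adjoin k (Set.range x ∪ Set.range w) = ⊤)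
    (ι : k →+* K) (f : Fin N → K[X])
    (h0 : ∀ a : MvPolynomial (Fin N) k, MvPolynomial.aeval x a = 0 →
      MvPolynomial.aeval f (MvPolynomial.map ι a) = 0)
    (h1 : ∀ a : MvPolynomial (Fin N) k, MvPolynomial.aeval x a ≠ 0 →
      MvPolynomial.aeval f (MvPolynomial.map ι a) ≠ 0)
    (T : M) (hT : Transcendental K T) (β : ι' → M)
    (hβ : ∀ i, β i ^ e i =
      Polynomial.aeval T (MvPolynomial.aeval f (MvPolynomial.map ι (F i)))) :
    ∃ φ : L →+* M, (∀ a : k, φ (algebraMap k L a) = algebraMap K M (ι a)) ∧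
      ∀ i, φ (x i) = Polynomial.aeval T (f i) := by
  classical
  let 𝔭 : Ideal (MvPolynomial (Fin N) k) :=
    RingHom.ker (MvPolynomial.aeval x : MvPolynomial (Fin N) k →ₐ[k] L)
  have : 𝔭.IsPrime := RingHom.ker_isPrime _
  let A := MvPolynomial (Fin N) k ⧸ 𝔭
  let M' := FractionRing A
  let a1 : A →+* L := Ideal.Quotient.lift 𝔭
    (MvPolynomial.aeval x : MvPolynomial (Fin N) k →ₐ[k] L).toRingHom (fun f hf => hf)
  have ha1 : Function.Injective a1 := by
    rw [injective_iff_map_eq_zero]
    intro y hy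
    obtain ⟨a, rfl⟩ := Ideal.Quotient.mk_surjective y
    exact Ideal.Quotient.eq_zero_iff_mem.mpr hy
  let ψ0 : MvPolynomial (Fin N) k →+* M :=
    ((Polynomial.aeval T : K[X] →ₐ[K] M).toRingHom.comp
      (MvPolynomial.aeval f : MvPolynomial (Fin N) K →ₐ[K] K[X]).toRingHom).comp
        (MvPolynomial.map ι)
  have hψ0 : ∀ a, ψ0 a =
      Polynomial.aeval T (MvPolynomial.aeval f (MvPolynomial.map ι a)) := fun a => rfl
  let a2 : A →+* M := Ideal.Quotient.lift 𝔭 ψ0 (by
    intro a ha
    rw [hψ0, h0 a ha, map_zero])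
  have ha2 : Function.Injective a2 := by
    rw [injective_iff_map_eq_zero]
    intro y hy
    obtain ⟨a, rfl⟩ := Ideal.Quotient.mk_surjective y
    refine Ideal.Quotient.eq_zero_iff_mem.mpr ?_
    have e1 : Polynomial.aeval T (MvPolynomial.aeval f (MvPolynomial.map ι a)) = 0 := hy
    have e2 := (transcendental_iff.mp hT) _ e1
    by_contra hne
    exact h1 a hne e2
  let i1 : Algebra M' L := (IsFractionRing.lift (K := M') ha1).toAlgebra
  let i2 : Algebra M' M := (IsFractionRing.lift (K := M') ha2).toAlgebra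
  have m1 : ∀ a : MvPolynomial (Fin N) k,
      algebraMap M' L (algebraMap A M' (Ideal.Quotient.mk 𝔭 a)) = MvPolynomial.aeval x a := by
    intro a
    exact IsFractionRing.lift_algebraMap ha1 _
  have m2 : ∀ a : MvPolynomial (Fin N) k,
      algebraMap M' M (algebraMap A M' (Ideal.Quotient.mk 𝔭 a)) =
        Polynomial.aeval T (MvPolynomial.aeval f (MvPolynomial.map ι a)) := by
    intro a
    exact IsFractionRing.lift_algebraMap ha2 _
  have hgen' : IntermediateField.adjoin M' (Set.range w) = ⊤ := by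
    rw [eq_top_iff]
    intro y _
    have hy : y ∈ IntermediateField.adjoin k (Set.range x ∪ Set.range w) := by
      rw [hgen]; trivial
    refine IntermediateField.adjoin_induction k
      (p := fun y _ => y ∈ IntermediateField.adjoin M' (Set.range w)) ?_ ?_ ?_ ?_ ?_ hy
    · rintro y (⟨i, rfl⟩ | hy)
      · have := m1 (MvPolynomial.X i)
        rw [MvPolynomial.aeval_X] at this
        rw [← this]
        exact algebraMap_mem _ _
      · exact IntermediateField.subset_adjoin _ _ hy
    · intro a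
      have := m1 (MvPolynomial.C a)
      rw [MvPolynomial.aeval_C] at this
      rw [← this]
      exact algebraMap_mem _ _
    · intro a b _ _ ha hb
      exact add_mem ha hb
    · intro a _ ha
      exact inv_mem ha
    · intro a b _ _ ha hb
      exact mul_mem ha hb
  have hsplit : ∀ s ∈ Set.range w, IsIntegral M' s ∧
      ((minpoly M' s).map (algebraMap M' M)).Splits := by
    rintro s ⟨i, rfl⟩
    set c := algebraMap A M' (Ideal.Quotient.mk 𝔭 (F i)) with hc
    have e1 : Polynomial.aeval (w i) (X ^ (e i) - C c : M'[X]) = 0 := by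
      rw [map_sub, map_pow, aeval_X, aeval_C, hc, m1, hw, sub_self]
    have e2 : (X ^ (e i) - C c : M'[X]).Monic := monic_X_pow_sub_C c (he i).ne'
    refine ⟨⟨X ^ (e i) - C c, e2, by rwa [← aeval_def]⟩, ?_⟩
    have e3 : minpoly M' (w i) ∣ X ^ (e i) - C c := minpoly.dvd _ _ e1
    have e4 : (X ^ (e i) - C c : M'[X]).map (algebraMap M' M) =
        X ^ (e i) - C (algebraMap M' M c) := by
      rw [Polynomial.map_sub, Polynomial.map_pow, map_X, map_C]
    have e5 : ((X ^ (e i) - C c : M'[X]).map (algebraMap M' M)).Splits := by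
      rw [e4]
      obtain ⟨ζ, hζ'⟩ := hζ i
      refine X_pow_sub_C_splits_of_isPrimitiveRoot hζ' (α := β i) ?_
      rw [hβ, hc, m2]
    have e6 : ((minpoly M' (w i)).map (algebraMap M' M)) ∣
      ((X ^ (e i) - C c : M'[X]).map (algebraMap M' M)) := Polynomial.map_dvd _ e3
    exact e5.of_dvd (Monic.ne_zero (e2.map _)) e6
  obtain ⟨φ⟩ := IntermediateField.nonempty_algHom_of_adjoin_splits (F := M') (E := L) (K := M)
    hsplit hgen'
  refine ⟨φ.toRingHom, ?_, ?_⟩
  · intro a
    have e1 := m1 (MvPolynomial.C a)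
    have e2 := m2 (MvPolynomial.C a)
    rw [MvPolynomial.aeval_C] at e1
    rw [MvPolynomial.map_C, MvPolynomial.aeval_C] at e2
    rw [← e1]
    have e3 := φ.commutes (algebraMap A M' (Ideal.Quotient.mk 𝔭 (MvPolynomial.C a)))
    refine e3.trans (e2.trans ?_)
    simp
  · intro i
    have e1 := m1 (MvPolynomial.X i)
    have e2 := m2 (MvPolynomial.X i)
    rw [MvPolynomial.aeval_X] at e1
    rw [MvPolynomial.map_X, MvPolynomial.aeval_X] at e2
    rw [← e1]
    have e3 := φ.commutes (algebraMap A M' (Ideal.Quotient.mk 𝔭 (MvPolynomial.X i)))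
    exact e3.trans e2

end MP501976
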