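import Mathlib

open Polynomial WeierstrassCurve

namespace MP501976

variable {K : Type*} [Field K]

/-- The curve with equation `Y² = (X - e₁)(X - e₂)(X - e₃)`. -/
def cub (e1 e2 e3 : K) : WeierstrassCurve.Affine K :=
  ⟨0, -(e1 + e2 + e3), 0, e1 * e2 + e1 * e3 + e2 * e3, -(e1 * e2 * e3)⟩

theorem cub_elliptic [CharZero K] {e1 e2 e3 : K} (h12 : e1 ≠ e2) (h13 : e1 ≠ e3)
    (h23 : e2 ≠ e3) : (cub e1 e2 e3).IsElliptic := by
  have hD : (cub e1 e2 e3).Δ = 16 * ((e1 - e2) * (e1 - e3) * (e2 - e3)) ^ 2 := by
    simp only [cub, WeierstrassCurve.Δ, WeierstrassCurve.b₂, WeierstrassCurve.b₄,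
      WeierstrassCurve.b₆, WeierstrassCurve.b₈]
    ring
  refine ⟨?_⟩
  rw [hD]
  refine IsUnit.mk0 _ ?_
  have a := sub_ne_zero.mpr h12
  have b := sub_ne_zero.mpr h13
  have c := sub_ne_zero.mpr h23
  have h16 : (16 : K) ≠ 0 := by
    have := (Nat.cast_ne_zero (R := K)).mpr (show (16 : ℕ) ≠ 0 by norm_num)
    exact_mod_cast this
  exact mul_ne_zero h16 (pow_ne_zero _ (mul_ne_zero (mul_ne_zero a b) c))

/-- The coordinate functions. -/
noncomputable def fx (W : WeierstrassCurve.Affine K) : W.FunctionField :=
  algebraMap W.CoordinateRing W.FunctionField (Affine.CoordinateRing.mk W (C X))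

/-- The coordinate functions. -/
noncomputable def fy (W : WeierstrassCurve.Affine K) : W.FunctionField :=
  algebraMap W.CoordinateRing W.FunctionField (Affine.CoordinateRing.mk W X)

theorem fx_transc (W : WeierstrassCurve.Affine K) : Transcendental K (fx W) := by
  rw [transcendental_iff]
  intro p hp
  have h1 : aeval (fx W) p = algebraMap W.CoordinateRing W.FunctionField
      (algebraMap K[X] W.CoordinateRing p) := by
    have : (aeval (fx W) : K[X] →ₐ[K] W.FunctionField) =
        (Algebra.ofId W.CoordinateRing W.FunctionField |>.restrictScalars K).comp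
          ((Algebra.ofId K[X] W.CoordinateRing).restrictScalars K) := by
      apply Polynomial.algHom_ext
      simp [fx]
    rw [this]
    rfl
  rw [h1] at hp
  have h2 := (map_eq_zero_iff _ (IsFractionRing.injective W.CoordinateRing W.FunctionField)).mp hp
  exact (map_eq_zero_iff _ (FaithfulSMul.algebraMap_injective K[X] W.CoordinateRing)).mp h2

theorem fy_sq (e1 e2 e3 : K) : (fy (cub e1 e2 e3)) ^ 2 =
    (fx (cub e1 e2 e3) - algebraMap K _ e1) * (fx (cub e1 e2 e3) - algebraMap K _ e2) *
      (fx (cub e1 e2 e3) - algebraMap K _ e3) := by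
  have key : (Affine.CoordinateRing.mk (cub e1 e2 e3) X) ^ 2 =
      Affine.CoordinateRing.mk (cub e1 e2 e3) (C ((X - C e1) * (X - C e2) * (X - C e3))) := by
    rw [← map_pow]
    refine AdjoinRoot.mk_eq_mk.mpr ⟨1, ?_⟩
    rw [Affine.polynomial]
    simp only [cub, map_zero, map_add, map_sub, map_mul, map_neg, map_pow]
    ring
  have hC : ∀ r : K, algebraMap K (cub e1 e2 e3).FunctionField r =
      algebraMap (cub e1 e2 e3).CoordinateRing (cub e1 e2 e3).FunctionField
        (Affine.CoordinateRing.mk (cub e1 e2 e3) (C (C r))) := by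
    intro r
    rw [IsScalarTower.algebraMap_apply K (cub e1 e2 e3).CoordinateRing
      (cub e1 e2 e3).FunctionField]
    rfl
  rw [fy, fx, ← map_pow, key, hC, hC, hC]
  simp only [map_mul, map_sub]

/-- Rational parametrisation in the case of at most two roots. -/
theorem exists_rat [CharZero K] {M : Type*} [Field M] [Algebra K M] {x : M}
    (hx : Transcendental K x) (s : Multiset K) (hs : s.card ≤ 2) :
    ∃ T W : M, Transcendental K T ∧ W ^ 2 = (s.map (fun r => T - algebraMap K M r)).prod := by
  have hx2 : Transcendental K (x ^ 2) := fun h => hx (IsAlgebraic.of_pow (by norm_num) h)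
  interval_cases hc : s.card
  · rw [Multiset.card_eq_zero] at hc
    subst hc
    exact ⟨x, 1, hx, by simp⟩
  · rw [Multiset.card_eq_one] at hc
    obtain ⟨r, rfl⟩ := hc
    refine ⟨algebraMap K M r + x ^ 2, x, ?_, by simp⟩
    intro h
    apply hx2
    have := h.sub (isAlgebraic_algebraMap (R := K) (A := M) r)
    simpa using this
  · rw [Multiset.card_eq_two] at hc
    obtain ⟨r1, r2, rfl⟩ := hc
    by_cases h12 : r1 = r2
    · subst h12
      refine ⟨x, x - algebraMap K M r1, hx, ?_⟩
      simp only [Multiset.insert_eq_cons, Multiset.map_cons, Multiset.map_singleton,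
        Multiset.prod_cons, Multiset.prod_singleton]
      ring
    · have hd : algebraMap K M (r1 - r2) ≠ 0 := by
        rw [Ne, map_eq_zero_iff _ (algebraMap K M).injective]
        exact sub_ne_zero.mpr h12
      have hx21 : x ^ 2 - 1 ≠ 0 := by
        intro h
        apply hx2
        have : x ^ 2 = algebraMap K M 1 := by
          rw [map_one]; linear_combination h
        rw [this]
        exact isAlgebraic_algebraMap _
      have hx0 : x ≠ 0 := by
        rintro rfl
        exact hx isAlgebraic_zero
      refine ⟨algebraMap K M r1 + algebraMap K M (r1 - r2) / (x ^ 2 - 1),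
        x * (algebraMap K M (r1 - r2) / (x ^ 2 - 1)), ?_, ?_⟩
      · intro h
        apply hx2
        have h1 := h.sub (isAlgebraic_algebraMap (R := K) (A := M) r1)
        have h2 := (h1.inv.mul (isAlgebraic_algebraMap (R := K) (A := M) (r1 - r2))).add
          (isAlgebraic_algebraMap (R := K) (A := M) 1)
        have e : (algebraMap K M r1 + algebraMap K M (r1 - r2) / (x ^ 2 - 1) -
            algebraMap K M r1)⁻¹ * algebraMap K M (r1 - r2) + algebraMap K M 1 = x ^ 2 := by
          rw [add_sub_cancel_left, map_one, inv_div, div_mul_cancel₀ _ hd]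
          ring
        rwa [e] at h2
      · simp only [Multiset.insert_eq_cons, Multiset.map_cons, Multiset.map_singleton,
          Multiset.prod_cons, Multiset.prod_singleton]
        rw [map_sub] at hd ⊢
        field_simp
        ring

/-- Elliptic parametrisation in the case of three distinct roots. -/
theorem exists_ell3 [CharZero K] {r1 r2 r3 : K} (h12 : r1 ≠ r2) (h13 : r1 ≠ r3)
    (h23 : r2 ≠ r3) : ∃ E : WeierstrassCurve.Affine K, E.IsElliptic ∧
      ∃ T W : E.FunctionField, Transcendental K T ∧
        W ^ 2 = (T - algebraMap K _ r1) * (T - algebraMap K _ r2) * (T - algebraMap K _ r3) :=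
  ⟨cub r1 r2 r3, cub_elliptic h12 h13 h23, fx _, fy _, fx_transc _, fy_sq _ _ _⟩

/-- Elliptic parametrisation in the case of four distinct roots. -/
theorem exists_ell4 [CharZero K] {r1 r2 r3 r4 : K} (h12 : r1 ≠ r2) (h13 : r1 ≠ r3)
    (h14 : r1 ≠ r4) (h23 : r2 ≠ r3) (h24 : r2 ≠ r4) (h34 : r3 ≠ r4) :
    ∃ E : WeierstrassCurve.Affine K, E.IsElliptic ∧
      ∃ T W : E.FunctionField, Transcendental K T ∧
        W ^ 2 = (T - algebraMap K _ r1) * (T - algebraMap K _ r2) * (T - algebraMap K _ r3) *
          (T - algebraMap K _ r4) := by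
  have d2 : r1 - r2 ≠ 0 := sub_ne_zero.mpr h12
  have d3 : r1 - r3 ≠ 0 := sub_ne_zero.mpr h13
  have d4 : r1 - r4 ≠ 0 := sub_ne_zero.mpr h14
  have c23 : r2 - r3 ≠ 0 := sub_ne_zero.mpr h23
  have c24 : r2 - r4 ≠ 0 := sub_ne_zero.mpr h24
  have c34 : r3 - r4 ≠ 0 := sub_ne_zero.mpr h34
  set E := cub (-((r1 - r3) * (r1 - r4))) (-((r1 - r2) * (r1 - r4)))
    (-((r1 - r2) * (r1 - r3))) with hE
  have hell : E.IsElliptic := by
    apply cub_elliptic
    · intro h
      apply mul_ne_zero d4 c23
      linear_combination (-1 : K) * h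
    · intro h
      apply mul_ne_zero d3 c24
      linear_combination (-1 : K) * h
    · intro h
      apply mul_ne_zero d2 c34
      linear_combination (-1 : K) * h
  refine ⟨E, hell, algebraMap K _ r1 +
    algebraMap K _ ((r1 - r2) * (r1 - r3) * (r1 - r4)) / fx E,
    algebraMap K _ ((r1 - r2) * (r1 - r3) * (r1 - r4)) * fy E / fx E ^ 2, ?_, ?_⟩
  · intro h
    apply fx_transc E
    have h1 := h.sub (isAlgebraic_algebraMap (R := K) (A := E.FunctionField) r1)
    have h2 := h1.inv.mul (isAlgebraic_algebraMap (R := K) (A := E.FunctionField)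
      ((r1 - r2) * (r1 - r3) * (r1 - r4)))
    have hd : algebraMap K E.FunctionField ((r1 - r2) * (r1 - r3) * (r1 - r4)) ≠ 0 := by
      rw [Ne, map_eq_zero_iff _ (algebraMap K _).injective]
      exact mul_ne_zero (mul_ne_zero d2 d3) d4
    rwa [add_sub_cancel_left, inv_div, div_mul_cancel₀ _ hd] at h2
  · have hx0 : fx E ≠ 0 := by
      intro h
      apply fx_transc E
      rw [h]
      exact isAlgebraic_zero
    have hy := fy_sq (-((r1 - r3) * (r1 - r4))) (-((r1 - r2) * (r1 - r4)))
      (-((r1 - r2) * (r1 - r3)))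
    rw [← hE] at hy
    simp only [map_neg, map_mul, map_sub] at hy ⊢
    field_simp
    rw [hy]
    ring

/-- The main lemma on curves: for at most four roots there is an elliptic curve whose function
field contains a transcendental `T` for which the product of the `T - r` is a square. -/
theorem exists_curve [CharZero K] (s : Multiset K) (hs : s.card ≤ 4) :
    ∃ E : WeierstrassCurve.Affine K, E.IsElliptic ∧
      ∃ T W : E.FunctionField, Transcendental K T ∧
        W ^ 2 = (s.map (fun r => T - algebraMap K _ r)).prod := by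
  classical
  have hE0 : (cub (0 : K) 1 (-1)).IsElliptic := by
    apply cub_elliptic
    · exact zero_ne_one
    · intro h
      have := neg_eq_zero.mp h.symm
      exact one_ne_zero this
    · intro h
      have h2 : (2 : K) = 0 := by linear_combination h
      exact two_ne_zero h2
  by_cases hnd : s.Nodup
  · by_cases hs2 : s.card ≤ 2
    · obtain ⟨T, W, h1, h2⟩ := exists_rat (fx_transc (cub (0 : K) 1 (-1))) s hs2
      exact ⟨_, hE0, T, W, h1, h2⟩
    · have h34 : s.card = 3 ∨ s.card = 4 := by omega
      rcases h34 with h | h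
      · rw [Multiset.card_eq_three] at h
        obtain ⟨r1, r2, r3, rfl⟩ := h
        simp only [Multiset.insert_eq_cons, Multiset.nodup_cons, Multiset.mem_cons,
          Multiset.mem_singleton, not_or] at hnd
        obtain ⟨E, hE, T, W, hT, hW⟩ := exists_ell3 hnd.1.1 hnd.1.2 hnd.2.1
        refine ⟨E, hE, T, W, hT, ?_⟩
        rw [hW]
        simp only [Multiset.insert_eq_cons, Multiset.map_cons, Multiset.map_singleton,
          Multiset.prod_cons, Multiset.prod_singleton]
        ring
      · obtain ⟨r1, t, rfl, ht⟩ := Multiset.card_eq_succ_iff.mp h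
        rw [Multiset.card_eq_three] at ht
        obtain ⟨r2, r3, r4, rfl⟩ := ht
        simp only [Multiset.insert_eq_cons, Multiset.nodup_cons, Multiset.mem_cons,
          Multiset.mem_singleton, not_or] at hnd
        obtain ⟨E, hE, T, W, hT, hW⟩ := exists_ell4 hnd.1.1 hnd.1.2.1 hnd.1.2.2 hnd.2.1.1
          hnd.2.1.2 hnd.2.2.1
        refine ⟨E, hE, T, W, hT, ?_⟩
        rw [hW]
        simp only [Multiset.insert_eq_cons, Multiset.map_cons, Multiset.map_singleton,
          Multiset.prod_cons, Multiset.prod_singleton]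
        ring
  · have : ∃ e t, s = e ::ₘ e ::ₘ t := by
      rw [Multiset.nodup_iff_le] at hnd
      push Not at hnd
      obtain ⟨e, he⟩ := hnd
      obtain ⟨t, ht⟩ := Multiset.le_iff_exists_add.mp he
      exact ⟨e, t, by rw [ht]; simp⟩
    obtain ⟨e, t, rfl⟩ := this
    have ht : t.card ≤ 2 := by
      simp only [Multiset.card_cons] at hs
      omega
    obtain ⟨T, W, h1, h2⟩ := exists_rat (fx_transc (cub (0 : K) 1 (-1))) t ht
    refine ⟨_, hE0, T, W * (T - algebraMap K _ e), h1, ?_⟩
    simp only [Multiset.map_cons, Multiset.prod_cons]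
    rw [mul_pow, h2]
    ring

end MP501976
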