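import Mathlib
import Pool.Agent.Work.MP_501976_ag_helper95.Curve

open Polynomial WeierstrassCurve

namespace MP501976

variable {K : Type*} [Field K]

/-- The curve `Y² = X³ + A X + B`. -/
def shortCurve (A B : K) : WeierstrassCurve.Affine K := ⟨0, 0, 0, A, B⟩

theorem shortCurve_elliptic {A B : K} [CharZero K] (h : 4 * A ^ 3 + 27 * B ^ 2 ≠ 0) :
    (shortCurve A B).IsElliptic := by
  have hD : (shortCurve A B).Δ = -16 * (4 * A ^ 3 + 27 * B ^ 2) := by
    simp only [shortCurve, WeierstrassCurve.Δ, WeierstrassCurve.b₂, WeierstrassCurve.b₄,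
      WeierstrassCurve.b₆, WeierstrassCurve.b₈]
    ring
  refine ⟨?_⟩
  rw [hD]
  refine IsUnit.mk0 _ (mul_ne_zero ?_ h)
  have : (16 : K) ≠ 0 := by
    have := (Nat.cast_ne_zero (R := K)).mpr (show (16 : ℕ) ≠ 0 by norm_num)
    exact_mod_cast this
  exact neg_ne_zero.mpr this

theorem short_fy_sq (A B : K) : (fy (shortCurve A B)) ^ 2 =
    fx (shortCurve A B) ^ 3 + algebraMap K _ A * fx (shortCurve A B) + algebraMap K _ B := by
  have key : (Affine.CoordinateRing.mk (shortCurve A B) X) ^ 2 =
      Affine.CoordinateRing.mk (shortCurve A B) (C (X ^ 3 + C A * X + C B)) := by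
    rw [← map_pow]
    refine AdjoinRoot.mk_eq_mk.mpr ⟨1, ?_⟩
    rw [Affine.polynomial]
    simp only [shortCurve, map_zero, map_add, map_mul, map_pow]
    ring
  have hC : ∀ r : K, algebraMap K (shortCurve A B).FunctionField r =
      algebraMap (shortCurve A B).CoordinateRing (shortCurve A B).FunctionField
        (Affine.CoordinateRing.mk (shortCurve A B) (C (C r))) := by
    intro r
    rw [IsScalarTower.algebraMap_apply K (shortCurve A B).CoordinateRing
      (shortCurve A B).FunctionField]
    rfl
  rw [fy, fx, ← map_pow, key, hC, hC]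
  simp only [map_mul, map_add, map_pow]

theorem transc_of {M : Type*} [Field M] [Algebra K M] {x y : M} (hx : Transcendental K x)
    (h : IsAlgebraic K y → IsAlgebraic K x) : Transcendental K y := fun hy => hx (h hy)

theorem algMap_ne {M : Type*} [Field M] [Algebra K M] {a : K} (ha : a ≠ 0) :
    algebraMap K M a ≠ 0 := by
  rwa [Ne, map_eq_zero_iff _ (algebraMap K M).injective]

theorem ne_algMap {M : Type*} [Field M] [Algebra K M] {x : M} (hx : Transcendental K x) (a : K) :
    x ≠ algebraMap K M a := by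
  rintro rfl
  exact hx (isAlgebraic_algebraMap a)

/-- `W ^ n = (T - a) ^ (n - 1) * (T - b)` on the line. -/
theorem exists_rat_pow {M : Type*} [Field M] [Algebra K M] {x : M} (hx : Transcendental K x)
    (n : ℕ) {a b : K} (hab : a ≠ b) :
    ∃ T W : M, Transcendental K T ∧
      W ^ (n + 1) = (T - algebraMap K M a) ^ n * (T - algebraMap K M b) := by
  have hxn : Transcendental K (x ^ (n + 1)) := fun h =>
    hx (IsAlgebraic.of_pow (Nat.succ_pos n) h)
  have hd : algebraMap K M (b - a) ≠ 0 := algMap_ne (sub_ne_zero.mpr hab.symm)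
  have h1 : 1 - x ^ (n + 1) ≠ 0 := by
    intro h
    apply ne_algMap hxn 1
    rw [map_one]
    linear_combination -h
  refine ⟨algebraMap K M a + algebraMap K M (b - a) / (1 - x ^ (n + 1)),
    x * (algebraMap K M (b - a) / (1 - x ^ (n + 1))), ?_, ?_⟩
  · refine transc_of hxn fun h => ?_
    have e1 := h.sub (isAlgebraic_algebraMap (R := K) (A := M) a)
    have e2 := (isAlgebraic_algebraMap (R := K) (A := M) 1).sub
      (e1.inv.mul (isAlgebraic_algebraMap (R := K) (A := M) (b - a)))
    have e : algebraMap K M 1 - (algebraMap K M a +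
        algebraMap K M (b - a) / (1 - x ^ (n + 1)) -
        algebraMap K M a)⁻¹ * algebraMap K M (b - a) = x ^ (n + 1) := by
      rw [add_sub_cancel_left, map_one, inv_div, div_mul_cancel₀ _ hd]
      ring
    rwa [e] at e2
  · have e3 : algebraMap K M a + algebraMap K M (b - a) / (1 - x ^ (n + 1)) -
        algebraMap K M b = x ^ (n + 1) * (algebraMap K M (b - a) / (1 - x ^ (n + 1))) := by
      rw [map_sub]
      field_simp
      ring
    rw [e3, add_sub_cancel_left]
    ring

theorem transc_inv_add {M : Type*} [Field M] [Algebra K M] {y : M} (hy : Transcendental K y)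
    (c : K) : Transcendental K (algebraMap K M c + 1 / y) := by
  refine transc_of hy fun h => ?_
  have e1 := (h.sub (isAlgebraic_algebraMap (R := K) (A := M) c)).inv
  rwa [add_sub_cancel_left, one_div, inv_inv] at e1

/-- The curve `V³ = λ (y - a) (y - b)`. -/
theorem exists_cube_quad [CharZero K] {lam a b : K} (hl : lam ≠ 0) (hab : a ≠ b) :
    ∃ E : WeierstrassCurve.Affine K, E.IsElliptic ∧ ∃ y V : E.FunctionField,
      Transcendental K y ∧
        V ^ 3 = algebraMap K _ lam * (y - algebraMap K _ a) * (y - algebraMap K _ b) := by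
  have hD : ((a - b) / 2) ^ 2 ≠ 0 := pow_ne_zero _ (div_ne_zero (sub_ne_zero.mpr hab) two_ne_zero)
  have hB : lam ^ 4 * ((a - b) / 2) ^ 2 ≠ 0 := mul_ne_zero (pow_ne_zero _ hl) hD
  set E := shortCurve 0 (lam ^ 4 * ((a - b) / 2) ^ 2) with hE
  have hell : E.IsElliptic := by
    apply shortCurve_elliptic
    have h27 : (27 : K) ≠ 0 := by
      have := (Nat.cast_ne_zero (R := K)).mpr (show (27 : ℕ) ≠ 0 by norm_num)
      exact_mod_cast this
    have : (4 : K) * 0 ^ 3 + 27 * (lam ^ 4 * ((a - b) / 2) ^ 2) ^ 2 =
        27 * (lam ^ 4 * ((a - b) / 2) ^ 2) ^ 2 := by ring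
    rw [this]
    exact mul_ne_zero h27 (pow_ne_zero _ hB)
  have hsq := short_fy_sq (0 : K) (lam ^ 4 * ((a - b) / 2) ^ 2)
  rw [← hE] at hsq
  have hlM : algebraMap K E.FunctionField lam ≠ 0 := algMap_ne hl
  refine ⟨E, hell, fy E / algebraMap K _ lam ^ 2 + algebraMap K _ ((a + b) / 2),
    fx E / algebraMap K _ lam, ?_, ?_⟩
  · refine transc_of (fx_transc E) fun h => ?_
    have e1 := (h.sub (isAlgebraic_algebraMap (R := K) (A := E.FunctionField) ((a + b) / 2))).mul
      (isAlgebraic_algebraMap (R := K) (A := E.FunctionField) (lam ^ 2))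
    rw [add_sub_cancel_right, map_pow, div_mul_cancel₀ _ (pow_ne_zero _ hlM)] at e1
    have e2 := (e1.pow 2).sub (isAlgebraic_algebraMap (R := K) (A := E.FunctionField)
      (lam ^ 4 * ((a - b) / 2) ^ 2))
    rw [hsq, map_zero, zero_mul, add_zero, add_sub_cancel_right] at e2
    exact IsAlgebraic.of_pow (by norm_num) e2
  · have h2 : (2 : E.FunctionField) ≠ 0 := by
      have := algMap_ne (M := E.FunctionField) (two_ne_zero (α := K))
      rwa [map_ofNat] at this
    simp only [map_zero, zero_mul, add_zero, map_mul, map_pow, map_div₀, map_sub, map_add,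
      map_ofNat] at hsq ⊢
    set l := algebraMap K E.FunctionField lam
    set A := algebraMap K E.FunctionField a
    set B := algebraMap K E.FunctionField b
    have e3 : fx E ^ 3 = fy E ^ 2 - l ^ 4 * ((A - B) / 2) ^ 2 := by rw [hsq]; ring
    rw [div_pow, e3]
    field_simp
    ring

/-- The case of exponent three. -/
theorem exists_three [CharZero K] (a b c : K) :
    ∃ E : WeierstrassCurve.Affine K, E.IsElliptic ∧ ∃ T W : E.FunctionField,
      Transcendental K T ∧
        W ^ 3 = (T - algebraMap K _ a) * (T - algebraMap K _ b) * (T - algebraMap K _ c) := by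
  obtain ⟨E₀, hE₀, -⟩ := exists_curve (0 : Multiset K) (by simp)
  by_cases hab : a = b
  · subst hab
    by_cases hac : a = c
    · subst hac
      exact ⟨E₀, hE₀, fx E₀, fx E₀ - algebraMap K _ a, fx_transc E₀, by ring⟩
    · obtain ⟨T, W, hT, hW⟩ := exists_rat_pow (fx_transc E₀) 2 hac
      exact ⟨E₀, hE₀, T, W, hT, by rw [hW]; ring⟩
  · by_cases hac : a = c
    · subst hac
      obtain ⟨T, W, hT, hW⟩ := exists_rat_pow (fx_transc E₀) 2 hab
      exact ⟨E₀, hE₀, T, W, hT, by rw [hW]; ring⟩
    · by_cases hbc : b = c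
      · subst hbc
        obtain ⟨T, W, hT, hW⟩ := exists_rat_pow (fx_transc E₀) 2 (Ne.symm hab)
        exact ⟨E₀, hE₀, T, W, hT, by rw [hW]; ring⟩
      · have ha : a - c ≠ 0 := sub_ne_zero.mpr hac
        have hb : b - c ≠ 0 := sub_ne_zero.mpr hbc
        obtain ⟨E, hE, y, V, hy, hV⟩ := exists_cube_quad (K := K) (lam := (a - c) * (b - c))
          (a := 1 / (a - c)) (b := 1 / (b - c)) (mul_ne_zero ha hb) (by
            intro h
            apply hab
            rw [div_eq_div_iff ha hb, one_mul, one_mul] at h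
            linear_combination -h)
        have hy0 : y ≠ 0 := by
          have := ne_algMap hy 0
          rwa [map_zero] at this
        refine ⟨E, hE, algebraMap K _ c + 1 / y, V / y, transc_inv_add hy c, ?_⟩
        have haM := algMap_ne (M := E.FunctionField) ha
        have hbM := algMap_ne (M := E.FunctionField) hb
        rw [div_pow, hV]
        simp only [map_mul, map_sub, map_div₀, map_one] at haM hbM ⊢
        field_simp
        ring

/-- The curve `V⁴ = λ (y - a) (y - b)`. -/
theorem exists_fourth_quad [CharZero K] {lam a b : K} (hl : lam ≠ 0) (hab : a ≠ b) :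
    ∃ E : WeierstrassCurve.Affine K, E.IsElliptic ∧ ∃ y V : E.FunctionField,
      Transcendental K y ∧
        V ^ 4 = algebraMap K _ lam * (y - algebraMap K _ a) * (y - algebraMap K _ b) := by
  have hmu : lam * (b - a) ≠ 0 := mul_ne_zero hl (sub_ne_zero.mpr hab.symm)
  have hA : -(lam * (lam * (b - a)) ^ 2) ≠ 0 := neg_ne_zero.mpr (mul_ne_zero hl (pow_ne_zero _ hmu))
  set E := shortCurve (-(lam * (lam * (b - a)) ^ 2)) 0 with hE
  have hell : E.IsElliptic := by
    apply shortCurve_elliptic
    have h4 : (4 : K) ≠ 0 := by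
      have := (Nat.cast_ne_zero (R := K)).mpr (show (4 : ℕ) ≠ 0 by norm_num)
      exact_mod_cast this
    have : (4 : K) * (-(lam * (lam * (b - a)) ^ 2)) ^ 3 + 27 * 0 ^ 2 =
        4 * (-(lam * (lam * (b - a)) ^ 2)) ^ 3 := by ring
    rw [this]
    exact mul_ne_zero h4 (pow_ne_zero _ hA)
  have hsq := short_fy_sq (-(lam * (lam * (b - a)) ^ 2)) (0 : K)
  rw [← hE] at hsq
  have hlM : algebraMap K E.FunctionField lam ≠ 0 := algMap_ne hl
  have hmuM : algebraMap K E.FunctionField (lam * (b - a)) ≠ 0 := algMap_ne hmu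
  have hs : Transcendental K (fx E / algebraMap K E.FunctionField (lam * (b - a))) := by
    refine transc_of (fx_transc E) fun h => ?_
    have := h.mul (isAlgebraic_algebraMap (R := K) (A := E.FunctionField) (lam * (b - a)))
    rwa [div_mul_cancel₀ _ hmuM] at this
  have hs2 : Transcendental K
      ((fx E / algebraMap K E.FunctionField (lam * (b - a))) ^ 2) := fun h =>
    hs (IsAlgebraic.of_pow (by norm_num) h)
  have hden : (fx E / algebraMap K E.FunctionField (lam * (b - a))) ^ 2 -
      algebraMap K E.FunctionField lam ≠ 0 := sub_ne_zero.mpr (ne_algMap hs2 lam)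
  have hU : (fy E / algebraMap K E.FunctionField (lam * (b - a))) ^ 2 =
      algebraMap K E.FunctionField (lam * (b - a)) *
      (fx E / algebraMap K E.FunctionField (lam * (b - a))) *
        ((fx E / algebraMap K E.FunctionField (lam * (b - a))) ^ 2 -
          algebraMap K E.FunctionField lam) := by
    rw [div_pow, hsq]
    have hba : algebraMap K E.FunctionField b - algebraMap K E.FunctionField a ≠ 0 := by
      rw [← map_sub]
      exact algMap_ne (sub_ne_zero.mpr hab.symm)
    simp only [map_mul, map_sub, map_neg, map_pow, map_zero, add_zero] at hmuM ⊢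
    field_simp
    ring
  set s := fx E / algebraMap K E.FunctionField (lam * (b - a)) with hsdef
  set U := fy E / algebraMap K E.FunctionField (lam * (b - a)) with hUdef
  refine ⟨E, hell, (algebraMap K _ b * s ^ 2 - algebraMap K _ lam * algebraMap K _ a) /
    (s ^ 2 - algebraMap K _ lam), U / (s ^ 2 - algebraMap K _ lam), ?_, ?_⟩
  · refine transc_of hs2 fun h => ?_
    -- `s² = λ (y - a) / (y - b)`
    have e1 := (isAlgebraic_algebraMap (R := K) (A := E.FunctionField) lam).mul
      ((h.sub (isAlgebraic_algebraMap (R := K) (A := E.FunctionField) a)).mul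
        (h.sub (isAlgebraic_algebraMap (R := K) (A := E.FunctionField) b)).inv)
    have e2 : (algebraMap K _ b * s ^ 2 - algebraMap K _ lam * algebraMap K _ a) /
        (s ^ 2 - algebraMap K _ lam) - algebraMap K _ b =
          algebraMap K _ (lam * (b - a)) / (s ^ 2 - algebraMap K _ lam) := by
      rw [map_mul, map_sub]
      field_simp
      ring
    have e3 : (algebraMap K _ b * s ^ 2 - algebraMap K _ lam * algebraMap K _ a) /
        (s ^ 2 - algebraMap K _ lam) - algebraMap K _ a =
          (algebraMap K _ (b - a)) * s ^ 2 / (s ^ 2 - algebraMap K _ lam) := by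
      rw [map_sub]
      field_simp
      ring
    rw [e2, e3] at e1
    have e4 : algebraMap K E.FunctionField lam *
        ((algebraMap K _ (b - a)) * s ^ 2 / (s ^ 2 - algebraMap K _ lam) *
          (algebraMap K _ (lam * (b - a)) / (s ^ 2 - algebraMap K _ lam))⁻¹) = s ^ 2 := by
      rw [map_mul] at hmuM ⊢
      have hba : algebraMap K E.FunctionField (b - a) ≠ 0 := right_ne_zero_of_mul hmuM
      field_simp
    rwa [e4] at e1
  · have e5 : (U / (s ^ 2 - algebraMap K _ lam)) ^ 4 =
        (U ^ 2) ^ 2 / (s ^ 2 - algebraMap K _ lam) ^ 4 := by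
      rw [div_pow]
      congr 1
      ring
    rw [e5, hU]
    rw [map_mul, map_sub]
    field_simp
    ring

/-- The case of exponent four. -/
theorem exists_four [CharZero K] (a b c : K) :
    ∃ E : WeierstrassCurve.Affine K, E.IsElliptic ∧ ∃ T W : E.FunctionField,
      Transcendental K T ∧
        W ^ 4 = (T - algebraMap K _ a) * (T - algebraMap K _ b) *
          (T - algebraMap K _ c) ^ 2 := by
  obtain ⟨E₀, hE₀, -⟩ := exists_curve (0 : Multiset K) (by simp)
  by_cases hab : a = b
  · subst hab
    obtain ⟨T, W, hT, hW⟩ := exists_rat (fx_transc E₀) {a, c} (by simp)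
    refine ⟨E₀, hE₀, T, W, hT, ?_⟩
    simp only [Multiset.insert_eq_cons, Multiset.map_cons, Multiset.map_singleton,
      Multiset.prod_cons, Multiset.prod_singleton] at hW
    have : W ^ 4 = (W ^ 2) ^ 2 := by ring
    rw [this, hW]
    ring
  · by_cases hac : a = c
    · subst hac
      obtain ⟨T, W, hT, hW⟩ := exists_rat_pow (fx_transc E₀) 3 hab
      exact ⟨E₀, hE₀, T, W, hT, by rw [hW]; ring⟩
    · by_cases hbc : b = c
      · subst hbc
        obtain ⟨T, W, hT, hW⟩ := exists_rat_pow (fx_transc E₀) 3 (Ne.symm hab)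
        exact ⟨E₀, hE₀, T, W, hT, by rw [hW]; ring⟩
      · have ha : a - c ≠ 0 := sub_ne_zero.mpr hac
        have hb : b - c ≠ 0 := sub_ne_zero.mpr hbc
        obtain ⟨E, hE, y, V, hy, hV⟩ := exists_fourth_quad (K := K)
          (lam := (a - c) * (b - c))
          (a := 1 / (a - c)) (b := 1 / (b - c)) (mul_ne_zero ha hb) (by
            intro h
            apply hab
            rw [div_eq_div_iff ha hb, one_mul, one_mul] at h
            linear_combination -h)
        have hy0 : y ≠ 0 := by
          have := ne_algMap hy 0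
          rwa [map_zero] at this
        refine ⟨E, hE, algebraMap K _ c + 1 / y, V / y, transc_inv_add hy c, ?_⟩
        have haM := algMap_ne (M := E.FunctionField) ha
        have hbM := algMap_ne (M := E.FunctionField) hb
        rw [div_pow, hV]
        simp only [map_mul, map_sub, map_div₀, map_one] at haM hbM ⊢
        field_simp
        ring

theorem transc_inv {M : Type*} [Field M] [Algebra K M] {y : M} (hy : Transcendental K y) :
    Transcendental K y⁻¹ := by
  refine transc_of hy fun h => ?_
  have := h.inv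
  rwa [inv_inv] at this

/-- Passage to the inverse of the parameter. -/
theorem prod_inv_param {M : Type*} [Field M] [Algebra K M] {T : M} (hT : T ≠ 0)
    (s : Multiset K) :
    (s.map fun r => 1 - algebraMap K M r * T⁻¹).prod =
      (s.map fun r => T - algebraMap K M r).prod / T ^ s.card := by
  induction s using Multiset.induction_on with
  | empty => simp
  | cons a s ih =>
    rw [Multiset.map_cons, Multiset.prod_cons, ih, Multiset.map_cons, Multiset.prod_cons,
      Multiset.card_cons, pow_succ]
    field_simp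

/-- Cyclic covers of the projective line that are elliptic curves, by exponent and by
the numbers of branch points with local exponents one and two. -/
def EllipticType (o d₁ d₂ : ℕ) : Prop :=
  (o = 2 ∧ d₁ = 4 ∧ d₂ = 0) ∨ (o = 3 ∧ d₁ = 3 ∧ d₂ = 0) ∨ (o = 4 ∧ d₁ = 2 ∧ d₂ = 1)

theorem exists_kummer [CharZero K] {o d₁ d₂ : ℕ} (h : EllipticType o d₁ d₂)
    (s₁ s₂ : Multiset K) (h₁ : s₁.card = d₁) (h₂ : s₂.card = d₂) :
    ∃ E : WeierstrassCurve.Affine K, E.IsElliptic ∧ ∃ T W : E.FunctionField,
      Transcendental K T ∧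
        W ^ o = (s₁.map fun r => 1 - algebraMap K _ r * T).prod *
          (s₂.map fun r => 1 - algebraMap K _ r * T).prod ^ 2 := by
  rcases h with ⟨rfl, rfl, rfl⟩ | ⟨rfl, rfl, rfl⟩ | ⟨rfl, rfl, rfl⟩
  · rw [Multiset.card_eq_zero] at h₂
    subst h₂
    obtain ⟨E, hE, T, W, hT, hW⟩ := exists_curve s₁ h₁.le
    have hT0 : T ≠ 0 := by
      have := ne_algMap hT 0
      rwa [map_zero] at this
    refine ⟨E, hE, T⁻¹, W / T ^ 2, transc_inv hT, ?_⟩
    rw [prod_inv_param hT0, h₁, div_pow, hW]
    simp only [Multiset.map_zero, Multiset.prod_zero, one_pow, mul_one]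
    ring
  · rw [Multiset.card_eq_zero] at h₂
    subst h₂
    obtain ⟨a, b, c, rfl⟩ := Multiset.card_eq_three.mp h₁
    obtain ⟨E, hE, T, W, hT, hW⟩ := exists_three a b c
    have hT0 : T ≠ 0 := by
      have := ne_algMap hT 0
      rwa [map_zero] at this
    refine ⟨E, hE, T⁻¹, W / T, transc_inv hT, ?_⟩
    rw [prod_inv_param hT0, h₁, div_pow, hW]
    simp only [Multiset.map_zero, Multiset.prod_zero, one_pow, mul_one,
      Multiset.insert_eq_cons, Multiset.map_cons, Multiset.map_singleton,
      Multiset.prod_cons, Multiset.prod_singleton]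
    ring
  · obtain ⟨a, b, rfl⟩ := Multiset.card_eq_two.mp h₁
    obtain ⟨c, rfl⟩ := Multiset.card_eq_one.mp h₂
    obtain ⟨E, hE, T, W, hT, hW⟩ := exists_four a b c
    have hT0 : T ≠ 0 := by
      have := ne_algMap hT 0
      rwa [map_zero] at this
    refine ⟨E, hE, T⁻¹, W / T, transc_inv hT, ?_⟩
    rw [prod_inv_param hT0, prod_inv_param hT0, h₁, h₂, div_pow, hW]
    simp only [Multiset.insert_eq_cons, Multiset.map_cons, Multiset.map_singleton,
      Multiset.prod_cons, Multiset.prod_singleton]
    field_simp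

/-- A polynomial with constant coefficient one is a product of factors `1 - r X`. -/
theorem exists_factors {Ω : Type*} [Field Ω] [IsAlgClosed Ω] (h : Polynomial Ω) (n : ℕ)
    (h0 : h.coeff 0 = 1) (hn : h.natDegree ≤ n) :
    ∃ s : Multiset Ω, s.card = n ∧ h = (s.map fun r => 1 - C r * X).prod := by
  induction n generalizing h with
  | zero =>
    refine ⟨0, by simp, ?_⟩
    rw [eq_C_of_natDegree_eq_zero (Nat.le_zero.mp hn), h0]
    simp
  | succ n ih =>
    by_cases hd : h.natDegree = 0
    · obtain ⟨s, hs, hs'⟩ := ih h h0 (by omega)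
      exact ⟨0 ::ₘ s, by simp [hs], by simp [← hs']⟩
    · obtain ⟨ρ, hρ⟩ := IsAlgClosed.exists_root h (by
        intro hdeg
        exact hd (natDegree_eq_zero_iff_degree_le_zero.mpr hdeg.le))
      have hρ0 : ρ ≠ 0 := by
        rintro rfl
        rw [IsRoot, ← coeff_zero_eq_eval_zero, h0] at hρ
        exact one_ne_zero hρ
      obtain ⟨q, hq⟩ := dvd_iff_isRoot.mpr hρ
      have hq' : h = (1 - C ρ⁻¹ * X) * (C (-ρ) * q) := by
        rw [hq]
        have : (1 - C ρ⁻¹ * X) * (C (-ρ) * q) = (C (ρ⁻¹ * ρ) * X - C ρ) * q := by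
          rw [C_neg, C_mul]
          ring
        rw [this, inv_mul_cancel₀ hρ0, C_1, one_mul]
      have hc : (C (-ρ) * q).coeff 0 = 1 := by
        have := h0
        rw [hq', mul_coeff_zero] at this
        simpa using this
      have hq0 : q ≠ 0 := by
        rintro rfl
        simp at hc
      have hdeg : (C (-ρ) * q).natDegree ≤ n := by
        rw [natDegree_C_mul (neg_ne_zero.mpr hρ0)]
        have h1 := congrArg natDegree hq
        rw [natDegree_mul (X_sub_C_ne_zero ρ) hq0, natDegree_X_sub_C] at h1
        omega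
      obtain ⟨s, hs, hs'⟩ := ih _ hc hdeg
      refine ⟨ρ⁻¹ ::ₘ s, by simp [hs], ?_⟩
      rw [Multiset.map_cons, Multiset.prod_cons, ← hs', ← hq']

end MP501976
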