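import Mathlib
import Pool.Agent.Work.MP_501976_ag_helper95.Kummer
import Pool.Agent.Work.MP_501976_ag_helper95.Embed

universe u v

open Polynomial

namespace MP501976

/-- The field `L` is swept out by elliptic curves over `ℂ`: it embeds over `ℂ` into the function
field of an elliptic curve `E` over a finitely generated field `K`, not inside `K`. -/
def SweptOutByEllipticCurves (L : Type u) [Field L] [Algebra ℂ L] : Prop :=
  ∃ (K : Type u) (_ : Field K) (_ : Algebra ℂ K) (_ : Algebra.EssFiniteType ℂ K)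
    (E : WeierstrassCurve.Affine K) (_ : E.IsElliptic) (φ : L →+* E.FunctionField),
    (∀ z : ℂ, φ (algebraMap ℂ L z) = algebraMap K E.FunctionField (algebraMap ℂ K z)) ∧
      ∃ y : L, φ y ∉ Set.range (algebraMap K E.FunctionField)

theorem exists_mul_pow_mem {R : Type*} [CommRing R] {I 𝔭 : Ideal R} (h𝔭 : 𝔭 ∈ I.minimalPrimes)
    {a : R} (ha : a ∈ 𝔭) : ∃ s ∉ 𝔭, ∃ n : ℕ, s * a ^ n ∈ I := by
  classical
  have hprime : 𝔭.IsPrime := h𝔭.1.1
  by_contra hcon
  push Not at hcon
  have hdisj : Disjoint (I : Set R)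
      ((𝔭.primeCompl ⊔ Submonoid.powers a : Submonoid R) : Set R) := by
    rw [Set.disjoint_left]
    intro b hbI hb
    rw [SetLike.mem_coe, Submonoid.mem_sup] at hb
    obtain ⟨s, hs, y, ⟨n, rfl⟩, rfl⟩ := hb
    exact hcon s hs n hbI
  obtain ⟨q, hq, hIq, hqd⟩ := Ideal.exists_le_prime_disjoint I _ hdisj
  have hq𝔭 : q ≤ 𝔭 := by
    intro b hb
    by_contra hb'
    exact Set.disjoint_left.mp hqd hb (Submonoid.mem_sup_left hb')
  have h𝔭q : 𝔭 ≤ q := h𝔭.2 ⟨hq, hIq⟩ hq𝔭
  exact Set.disjoint_left.mp hqd (h𝔭q ha) (Submonoid.mem_sup_right ⟨1, by simp⟩)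

theorem eval_map_hom {k L Ω : Type*} [Field k] [Field L] [Field Ω] [Algebra k L] [Algebra L Ω]
    {N : ℕ} (x : Fin N → L) (f0 : k →+* Ω)
    (hf0 : ∀ a, f0 a = algebraMap L Ω (algebraMap k L a)) (A : MvPolynomial (Fin N) k) :
    MvPolynomial.eval (fun i => algebraMap L Ω (x i)) (MvPolynomial.map f0 A) =
      algebraMap L Ω (MvPolynomial.aeval x A) := by
  have : (MvPolynomial.eval (fun i => algebraMap L Ω (x i))).comp (MvPolynomial.map f0) =
      (algebraMap L Ω).comp
        (MvPolynomial.aeval x : MvPolynomial (Fin N) k →ₐ[k] L).toRingHom := by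
    apply MvPolynomial.ringHom_ext
    · intro a
      simp [hf0]
    · intro i
      simp
  exact congrArg (fun f => f A) this

theorem exists_descent {K Ω : Type*} [Field K] [Field Ω] [Algebra K Ω]
    (P : Polynomial Ω) (h : ∀ n, P.coeff n ∈ Set.range (algebraMap K Ω)) :
    ∃ Q : K[X], Q.map (algebraMap K Ω) = P :=
  (Polynomial.mem_lifts P).mp ((Polynomial.lifts_iff_coeff_lifts P).mpr h)

theorem exists_descent_multiset {F Ω : Type*} [Field F] [Field Ω] [Algebra F Ω]
    (K : IntermediateField F Ω) (s : Multiset Ω) (h : ∀ a ∈ s, a ∈ K) :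
    ∃ t : Multiset K, t.map (algebraMap K Ω) = s := by
  refine ⟨s.pmap (fun a ha => ⟨a, ha⟩) h, ?_⟩
  rw [Multiset.map_pmap]
  have : Multiset.pmap (fun (a : Ω) (_ : a ∈ K) => a) s h = s := by
    rw [Multiset.pmap_eq_map, Multiset.map_id']
  exact this

/-- Auxiliary: the field `L` with coordinates `x` has a parametrisation by an elliptic curve in
which the coordinates are polynomials in one function, with certain coefficients zero. -/
def EllipticParam {L : Type u} [Field L] [Algebra ℂ L] {N : ℕ} (x : Fin N → L) (wt : Fin N → ℕ)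
    {κ : Type} (extra : κ → (Σ i : Fin N, Fin (wt i))) : Prop :=
  ∃ (K : Type u) (_ : Field K) (_ : Algebra ℂ K) (_ : Algebra.EssFiniteType ℂ K)
    (E : WeierstrassCurve.Affine K) (_ : E.IsElliptic) (φ : L →+* E.FunctionField)
    (T : E.FunctionField) (f : Fin N → K[X]),
    (∀ z : ℂ, φ (algebraMap ℂ L z) = algebraMap K E.FunctionField (algebraMap ℂ K z)) ∧
      Transcendental K T ∧ (∀ i, φ (x i) = Polynomial.aeval T (f i)) ∧
      (∀ i, (f i).natDegree ≤ wt i) ∧ (∀ i, x i ≠ 0 → (f i).coeff 0 ≠ 0) ∧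
      (∀ a, (f (extra a).1).coeff ((extra a).2 + 1) = 0) ∧ ∃ i, (f i).natDegree ≠ 0

theorem kummer_param {L : Type u} [Field L] [Algebra ℂ L] {k : Type v} [Field k] [Algebra ℂ k]
    [Algebra k L] [IsScalarTower ℂ k L] [Algebra.EssFiniteType ℂ k] {N c s r : ℕ}
    (wt : Fin N → ℕ) {κ : Type} [Fintype κ] (extra : κ → (Σ i : Fin N, Fin (wt i)))
    (G : Fin c → MvPolynomial (Fin N) k) (x : Fin N → L)
    (hmin : RingHom.ker (MvPolynomial.aeval x : MvPolynomial (Fin N) k →ₐ[k] L) ∈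
      (Ideal.span (Set.range G)).minimalPrimes)
    (D : Fin (s + 1) → MvPolynomial (Fin N) k) (hD : ∀ b, MvPolynomial.aeval x (D b) ≠ 0)
    (e m : Fin (s + 1) → ℕ) (he : ∀ b, 0 < e b)
    (hdeg : ∀ b, MvPolynomial.weightedTotalDegree wt (D b) ≤ e b * m b)
    (w : Fin r → L) (q : Fin r → ℕ) (hq : ∀ a, 0 < q a) (n : Fin r → Fin (s + 1) → ℕ)
    (hw : ∀ a, w a ^ q a = ∏ b, MvPolynomial.aeval x (D b) ^ n a b)
    (hn : ∀ a b, q a ∣ e b * n a b)
    (hgen : IntermediateField.adjoin k (Set.range x ∪ Set.range w) = ⊤)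
    (htype : (3 ∣ e 0 ∧ 1 ≤ m 0) ∨ (4 ∣ e 0 ∧ 1 ≤ m 0) ∨ (2 ∣ e 0 ∧ 2 ≤ m 0))
    (hK : ∑ j, MvPolynomial.weightedTotalDegree wt (G j) + ∑ b, (e b - 1) * m b +
      Fintype.card κ ≤ ∑ i, wt i + 1) :
    EllipticParam x wt extra := by
  classical
  -- the numerical data
  obtain ⟨o, μ, n₀, d₁, d₂, htype', hoμ, hμ, hDn, hnn⟩ : ∃ o μ n₀ d₁ d₂ : ℕ,
      EllipticType o d₁ d₂ ∧ e 0 = o * μ ∧ 0 < μ ∧
      e 0 * n₀ + μ * d₁ + 2 * (μ * d₂) = e 0 * m 0 ∧ n₀ + d₁ + d₂ = m 0 + 2 := by
    rcases htype with ⟨⟨μ, hμ⟩, h⟩ | ⟨⟨μ, hμ⟩, h⟩ | ⟨⟨μ, hμ⟩, h⟩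
    · obtain ⟨n₀, hn₀⟩ : ∃ n₀, m 0 = n₀ + 1 := ⟨m 0 - 1, by omega⟩
      refine ⟨3, μ, n₀, 3, 0, Or.inr (Or.inl ⟨rfl, rfl, rfl⟩), hμ, ?_, ?_, by omega⟩
      · have := he 0; omega
      · rw [hμ, hn₀]; ring
    · obtain ⟨n₀, hn₀⟩ : ∃ n₀, m 0 = n₀ + 1 := ⟨m 0 - 1, by omega⟩
      refine ⟨4, μ, n₀, 2, 1, Or.inr (Or.inr ⟨rfl, rfl, rfl⟩), hμ, ?_, ?_, by omega⟩
      · have := he 0; omega
      · rw [hμ, hn₀]; ring
    · obtain ⟨n₀, hn₀⟩ : ∃ n₀, m 0 = n₀ + 2 := ⟨m 0 - 2, by omega⟩
      refine ⟨2, μ, n₀, 4, 0, Or.inl ⟨rfl, rfl, rfl⟩, hμ, ?_, ?_, by omega⟩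
      · have := he 0; omega
      · rw [hμ, hn₀]; ring
  have hsum : ∑ b, e b * m b = ∑ b, (e b - 1) * m b + ∑ b, m b := by
    rw [← Finset.sum_add_distrib]
    refine Finset.sum_congr rfl fun b _ => ?_
    obtain ⟨a, ha⟩ : ∃ a, e b = a + 1 := ⟨e b - 1, by have := he b; omega⟩
    rw [ha, Nat.add_sub_cancel]
    ring
  let Ω := AlgebraicClosure L
  let f0 : k →ₐ[ℂ] Ω := (IsScalarTower.toAlgHom ℂ L Ω).comp (IsScalarTower.toAlgHom ℂ k L)
  have hf0 : ∀ a, f0 a = algebraMap L Ω (algebraMap k L a) := fun a => rfl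
  have hev : ∀ A : MvPolynomial (Fin N) k,
      MvPolynomial.eval (fun i => algebraMap L Ω (x i)) (MvPolynomial.map (f0 : k →+* Ω) A) =
        algebraMap L Ω (MvPolynomial.aeval x A) := fun A => eval_map_hom x (f0 : k →+* Ω) hf0 A
  have hLΩ : Function.Injective (algebraMap L Ω) := (algebraMap L Ω).injective
  have hGker : ∀ j, MvPolynomial.aeval x (G j) = 0 := by
    intro j
    have : G j ∈ RingHom.ker (MvPolynomial.aeval x : MvPolynomial (Fin N) k →ₐ[k] L) :=
      hmin.1.2 (Ideal.subset_span ⟨j, rfl⟩)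
    exact this
  obtain ⟨f, hf1, hfwt, hfe, hf2, hf3, ⟨g, h₁, h₂, h₁0, h₂0, h₁d, h₂d, hFg⟩, hp⟩ :=
    exists_good_curve (Ω := Ω) wt extra (fun i => algebraMap L Ω (x i))
      (fun j => MvPolynomial.map (f0 : k →+* Ω) (G j))
      (MvPolynomial.map (f0 : k →+* Ω) (D 0))
      (fun i : Fin s => MvPolynomial.map (f0 : k →+* Ω) (D i.succ)) (fun i => e i.succ)
      (fun i => m i.succ) (e 0) n₀ μ d₁ d₂ (he 0) (fun i => he i.succ) hμ
      (by intro j; rw [hev, hGker, map_zero])
      (by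
        rw [hev]
        exact (map_ne_zero_iff _ hLΩ).mpr (hD 0))
      (by
        intro i
        rw [hev]
        exact (map_ne_zero_iff _ hLΩ).mpr (hD i.succ))
      (by
        rw [hDn]
        exact (weightedTotalDegree_map_le _ wt (D 0)).trans (hdeg 0))
      (fun i => (weightedTotalDegree_map_le _ wt (D i.succ)).trans (hdeg i.succ))
      (by
        have h1 : ∑ j, MvPolynomial.weightedTotalDegree wt
            (MvPolynomial.map (f0 : k →+* Ω) (G j)) ≤
            ∑ j, MvPolynomial.weightedTotalDegree wt (G j) :=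
          Finset.sum_le_sum fun j _ => weightedTotalDegree_map_le _ wt (G j)
        rw [Fin.sum_univ_succ, Fin.sum_univ_succ (fun b => (e b - 1) * m b),
          Fin.sum_univ_succ m] at hsum
        rw [Fin.sum_univ_succ] at hK
        rw [hDn, hnn]
        omega)
  choose p hp using hp
  rw [hev] at hFg
  obtain ⟨s₁, hs₁, rfl⟩ := exists_factors h₁ d₁ h₁0 h₁d
  obtain ⟨s₂, hs₂, rfl⟩ := exists_factors h₂ d₂ h₂0 h₂d
  -- roots of the values of the branch polynomials
  have hα : ∀ b, ∃ α : Ω, α ^ e b = algebraMap L Ω (MvPolynomial.aeval x (D b)) := fun b =>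
    IsAlgClosed.exists_pow_nat_eq _ (he b)
  choose α hα using hα
  -- the finitely generated field
  obtain ⟨t, ht⟩ := IntermediateField.fg_top ℂ k
  let cf : Polynomial Ω → Finset Ω := fun P => (Finset.range (P.natDegree + 1)).image P.coeff
  let S : Finset Ω := t.image f0 ∪ (Finset.univ.biUnion fun i => cf (f i)) ∪
    (Finset.univ.image α) ∪ cf g ∪
    s₁.toFinset ∪ s₂.toFinset ∪ (Finset.univ.biUnion fun i => cf (p i))
  let K : IntermediateField ℂ Ω := IntermediateField.adjoin ℂ (S : Set Ω)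
  have hSK : ∀ a ∈ S, a ∈ K := fun a ha => IntermediateField.subset_adjoin ℂ _ ha
  have hcf : ∀ P : Polynomial Ω, cf P ⊆ S → ∀ n, P.coeff n ∈ Set.range (algebraMap K Ω) := by
    intro P hP n
    by_cases hn : n < P.natDegree + 1
    · exact ⟨⟨P.coeff n, hSK _ (hP (Finset.mem_image_of_mem _ (Finset.mem_range.mpr hn)))⟩, rfl⟩
    · refine ⟨0, ?_⟩
      rw [map_zero, coeff_eq_zero_of_natDegree_lt (by omega)]
  have hKΩ : Function.Injective (algebraMap K Ω) := (algebraMap K Ω).injective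
  have hmapinj : Function.Injective (Polynomial.map (algebraMap K Ω)) :=
    Polynomial.map_injective _ hKΩ
  have hf' : ∀ i, ∃ Q : K[X], Q.map (algebraMap K Ω) = f i := by
    intro i
    refine exists_descent _ (hcf _ ?_)
    intro a ha
    simp only [S, Finset.mem_union, Finset.mem_biUnion, Finset.mem_univ, true_and]
    exact Or.inl (Or.inl (Or.inl (Or.inl (Or.inl (Or.inr ⟨i, ha⟩)))))
  choose f' hf' using hf'
  have hp' : ∀ i, ∃ Q : K[X], Q.map (algebraMap K Ω) = p i := by
    intro i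
    refine exists_descent _ (hcf _ ?_)
    intro a ha
    simp only [S, Finset.mem_union, Finset.mem_biUnion, Finset.mem_univ, true_and]
    exact Or.inr ⟨i, ha⟩
  choose p' hp' using hp'
  obtain ⟨g', hg'⟩ := exists_descent (K := K) g (hcf _ (by
    intro a ha
    simp only [S, Finset.mem_union]
    exact Or.inl (Or.inl (Or.inl (Or.inr ha)))))
  obtain ⟨s₁', hs₁'⟩ := exists_descent_multiset K s₁ (by
    intro a ha
    apply hSK
    simp only [S, Finset.mem_union, Multiset.mem_toFinset]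
    exact Or.inl (Or.inl (Or.inr ha)))
  obtain ⟨s₂', hs₂'⟩ := exists_descent_multiset K s₂ (by
    intro a ha
    apply hSK
    simp only [S, Finset.mem_union, Multiset.mem_toFinset]
    exact Or.inl (Or.inr ha))
  have hαK : ∀ b, α b ∈ K := by
    intro b
    apply hSK
    simp only [S, Finset.mem_union, Finset.mem_image, Finset.mem_univ, true_and]
    exact Or.inl (Or.inl (Or.inl (Or.inl (Or.inr ⟨b, rfl⟩))))
  have hkK : ∀ a : k, f0 a ∈ K := by
    intro a
    have ha : a ∈ IntermediateField.adjoin ℂ (t : Set k) := by rw [ht]; trivial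
    refine IntermediateField.adjoin_induction ℂ (p := fun a _ => f0 a ∈ K) ?_ ?_ ?_ ?_ ?_ ha
    · intro b hb
      apply hSK
      simp only [S, Finset.mem_union, Finset.mem_image]
      exact Or.inl (Or.inl (Or.inl (Or.inl (Or.inl (Or.inl ⟨b, hb, rfl⟩)))))
    · intro z
      rw [f0.commutes]
      exact K.algebraMap_mem z
    · intro b b' _ _ hb hb'
      rw [map_add]
      exact add_mem hb hb'
    · intro b _ hb
      rw [map_inv₀]
      exact inv_mem hb
    · intro b b' _ _ hb hb'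
      rw [map_mul]
      exact mul_mem hb hb'
  let ι : k →ₐ[ℂ] K := f0.codRestrict K.toSubalgebra hkK
  have hι : ∀ a, algebraMap K Ω (ι a) = f0 a := fun a => rfl
  have hιcomp : (algebraMap K Ω).comp (ι : k →+* K) = (f0 : k →+* Ω) := by
    ext a
    exact hι a
  have hθ : ∀ A : MvPolynomial (Fin N) k,
      (MvPolynomial.aeval f' (MvPolynomial.map (ι : k →+* K) A)).map (algebraMap K Ω) =
        MvPolynomial.aeval f (MvPolynomial.map (f0 : k →+* Ω) A) := by
    intro A
    rw [aeval_map, MvPolynomial.map_map, hιcomp]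
    simp only [hf']
  have hθ0 : ∀ A : MvPolynomial (Fin N) k,
      algebraMap K Ω ((MvPolynomial.aeval f' (MvPolynomial.map (ι : k →+* K) A)).coeff 0) =
        algebraMap L Ω (MvPolynomial.aeval x A) := by
    intro A
    rw [← coeff_map, hθ, aeval_eval_zero]
    simp only [hf1]
    exact hev A
  have hh1 : ∀ A : MvPolynomial (Fin N) k, MvPolynomial.aeval x A ≠ 0 →
      MvPolynomial.aeval f' (MvPolynomial.map (ι : k →+* K) A) ≠ 0 := by
    intro A hA hA0
    have := hθ0 A
    rw [hA0, coeff_zero, map_zero] at this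
    exact hA ((map_eq_zero_iff _ hLΩ).mp this.symm)
  let θ : MvPolynomial (Fin N) k →+* K[X] :=
    (MvPolynomial.aeval f' : MvPolynomial (Fin N) K →ₐ[K] K[X]).toRingHom.comp
      (MvPolynomial.map (ι : k →+* K))
  have hθdef : ∀ A, θ A = MvPolynomial.aeval f' (MvPolynomial.map (ι : k →+* K) A) :=
    fun A => rfl
  have hh0 : ∀ A : MvPolynomial (Fin N) k, MvPolynomial.aeval x A = 0 →
      MvPolynomial.aeval f' (MvPolynomial.map (ι : k →+* K) A) = 0 := by
    intro A hA
    obtain ⟨s, hs, n, hsn⟩ := exists_mul_pow_mem hmin (a := A) hA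
    have hθI : Ideal.span (Set.range G) ≤ RingHom.ker θ := by
      rw [Ideal.span_le]
      rintro _ ⟨j, rfl⟩
      refine hmapinj ?_
      rw [Polynomial.map_zero]
      exact (hθ (G j)).trans (hf3 j)
    have h2 : θ (s * A ^ n) = 0 := hθI hsn
    rw [map_mul, map_pow, mul_eq_zero] at h2
    rcases h2 with h2 | h2
    · exact absurd h2 (hh1 s hs)
    · refine (pow_eq_zero_iff (n := n) ?_).mp h2
      rintro rfl
      rw [pow_zero] at h2
      exact one_ne_zero h2
  -- the elliptic curve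
  obtain ⟨E, hE, T, W, hT, hW⟩ := exists_kummer (K := K) htype' s₁' s₂'
    (by rw [← hs₁, ← hs₁', Multiset.card_map]) (by rw [← hs₂, ← hs₂', Multiset.card_map])
  have hprod : ∀ s : Multiset K,
      ((s.map fun r => (1 - C r * X : K[X])).prod).map (algebraMap K Ω) =
        ((s.map (algebraMap K Ω)).map fun r => (1 - C r * X : Polynomial Ω)).prod := by
    intro s
    rw [Polynomial.map_multiset_prod, Multiset.map_map, Multiset.map_map]
    congr 1
    refine Multiset.map_congr rfl fun r _ => ?_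
    simp
  have hprodT : ∀ s : Multiset K,
      Polynomial.aeval T ((s.map fun r => (1 - C r * X : K[X])).prod) =
        (s.map fun r => 1 - algebraMap K E.FunctionField r * T).prod := by
    intro s
    rw [map_multiset_prod, Multiset.map_map]
    congr 1
    refine Multiset.map_congr rfl fun r _ => ?_
    simp
  have hβ₀ : θ (D 0) = C ((⟨α 0, hαK 0⟩ : K) ^ e 0) * (g' ^ e 0 *
        ((s₁'.map fun r => (1 - C r * X : K[X])).prod *
          (s₂'.map fun r => (1 - C r * X : K[X])).prod ^ 2) ^ μ) := by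
    refine hmapinj ?_
    rw [hθdef, hθ, hFg, ← hα]
    simp only [Polynomial.map_mul, Polynomial.map_pow, hprod, hs₁', hs₂', hg', map_C, map_pow]
    rfl
  have hβi : ∀ i : Fin s, θ (D i.succ) =
      C ((⟨α i.succ, hαK i.succ⟩ : K) ^ e i.succ) * p' i ^ e i.succ := by
    intro i
    refine hmapinj ?_
    rw [hθdef, hθ, hp, hev, ← hα]
    simp only [Polynomial.map_mul, Polynomial.map_pow, hp', map_C, map_pow]
    rfl
  -- roots of the branch polynomials in the function field
  have hB : ∀ b, ∃ B : E.FunctionField, B ^ e b = Polynomial.aeval T (θ (D b)) := by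
    intro b
    refine Fin.cases ?_ (fun i => ?_) b
    · refine ⟨algebraMap K E.FunctionField ⟨α 0, hαK 0⟩ * Polynomial.aeval T g' * W, ?_⟩
      rw [hβ₀]
      simp only [map_mul, map_pow, hprodT, aeval_C]
      rw [← hW, ← pow_mul, ← hoμ]
      ring
    · refine ⟨algebraMap K E.FunctionField ⟨α i.succ, hαK i.succ⟩ *
        Polynomial.aeval T (p' i), ?_⟩
      rw [hβi]
      simp only [map_mul, map_pow, aeval_C]
      rw [mul_pow]
  choose B hB using hB
  choose ν hν using hn
  obtain ⟨φ, hφ1, hφ2⟩ := exists_embedding (k := k) (L := L) (K := K) (M := E.FunctionField)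
    x w q hq
    (by
      intro a
      exact ⟨_, (Complex.isPrimitiveRoot_exp _ (hq a).ne').map_of_injective
        (f := (algebraMap K E.FunctionField).comp (algebraMap ℂ K)) (RingHom.injective _)⟩)
    (fun a => ∏ b, D b ^ n a b)
    (by
      intro a
      rw [hw, map_prod]
      simp only [map_pow])
    hgen (ι : k →+* K) f' hh0 hh1 T hT
    (fun a => ∏ b, B b ^ ν a b)
    (by
      intro a
      change (∏ b, B b ^ ν a b) ^ q a = Polynomial.aeval T (θ (∏ b, D b ^ n a b))
      rw [map_prod, map_prod, ← Finset.prod_pow]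
      refine Finset.prod_congr rfl fun b _ => ?_
      rw [map_pow, map_pow, ← hB, ← pow_mul, ← pow_mul, hν, mul_comm])
  have hess : Algebra.EssFiniteType ℂ K := IntermediateField.essFiniteType_iff.mpr ⟨S, rfl⟩
  refine ⟨K, inferInstance, inferInstance, hess, E, hE, φ, T, f', ?_, hT, hφ2, ?_, ?_, ?_, ?_⟩
  · intro z
    rw [IsScalarTower.algebraMap_apply ℂ k L, hφ1]
    congr 1
    exact ι.commutes z
  · intro i
    rw [← natDegree_map_eq_of_injective hKΩ, hf']
    exact hfwt i
  · intro i hxi h0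
    have h1 := hf1 i
    rw [← hf' i, coeff_map, h0, map_zero] at h1
    exact hxi ((map_eq_zero_iff _ hLΩ).mp h1.symm)
  · intro a
    have h1 := hfe a
    rw [← hf', coeff_map] at h1
    exact (map_eq_zero_iff _ hKΩ).mp h1
  · obtain ⟨i, hi⟩ := hf2
    refine ⟨i, ?_⟩
    rw [← natDegree_map_eq_of_injective hKΩ, hf']
    exact hi

theorem exists_nonconstant {K M : Type*} [Field K] [Field M] [Algebra K M] {T : M}
    (hT : Transcendental K T) (f : K[X]) (hf : f.natDegree ≠ 0) :
    Polynomial.aeval T f ∉ Set.range (algebraMap K M) := by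
  rintro ⟨b, hb⟩
  have h0 : Polynomial.aeval T (f - C b) = 0 := by
    rw [map_sub, aeval_C, hb, sub_self]
  have h1 := (transcendental_iff.mp hT) _ h0
  have h2 : f = C b := sub_eq_zero.mp h1
  apply hf
  rw [h2, natDegree_C]

end MP501976
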