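import Mathlib
import Pool.Agent.Work.MP_501976_ag_helper95.Main

universe u v

open Polynomial

namespace MP501976

/-- Curves in a weighted projective space that are constant up to scaling and normalised are
constant. -/
theorem const_of_relations {Ω : Type*} [Field Ω] [IsAlgClosed Ω] [CharZero Ω] {N : ℕ}
    (f : Fin (N + 1) → Polynomial Ω) (wt : Fin (N + 1) → ℕ) (hwt0 : 0 < wt 0)
    (hgcd : Finset.univ.gcd wt = 1) (hd : (f 0).natDegree ≤ wt 0) (h0 : ∀ i, (f i).coeff 0 ≠ 0)
    (h1 : (f 0).coeff 1 = 0) (b : Fin (N + 1) → Ω)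
    (hb : ∀ i, f i ^ wt 0 = C (b i) * f 0 ^ wt i) : ∀ i, (f i).natDegree = 0 := by
  classical
  have hfne : ∀ i, f i ≠ 0 := by
    intro i h
    apply h0 i
    rw [h, coeff_zero]
  have hbne : ∀ i, b i ≠ 0 := by
    intro i h
    have := hb i
    rw [h, C_0, zero_mul] at this
    exact pow_ne_zero _ (hfne i) this
  have key : (f 0).natDegree = 0 := by
    by_contra hne
    obtain ⟨ρ, hρ⟩ := IsAlgClosed.exists_root (f 0) (by
      intro hdeg
      exact hne (natDegree_eq_zero_iff_degree_le_zero.mpr hdeg.le))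
    have hρ0 : ρ ≠ 0 := by
      rintro rfl
      rw [IsRoot, ← coeff_zero_eq_eval_zero] at hρ
      exact h0 0 hρ
    set n := (f 0).rootMultiplicity ρ with hn
    have hn1 : 0 < n := (rootMultiplicity_pos (hfne 0)).mpr hρ
    have hdvd : ∀ i, wt 0 ∣ wt i * n := by
      intro i
      have e1 := congrArg (fun P => (P.roots).count ρ) (hb i)
      simp only [roots_pow, roots_C_mul _ (hbne i), Multiset.count_nsmul, count_roots] at e1
      exact ⟨_, e1.symm⟩
    have hdn : wt 0 ∣ n := by
      have e1 : wt 0 ∣ Finset.univ.gcd (fun i => wt i * n) :=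
        Finset.dvd_gcd fun i _ => hdvd i
      rw [Finset.gcd_mul_right, hgcd, one_mul, normalize_eq] at e1
      exact e1
    have hwn : wt 0 ≤ n := Nat.le_of_dvd hn1 hdn
    obtain ⟨q, hq⟩ : (X - C ρ) ^ wt 0 ∣ f 0 :=
      (pow_dvd_pow _ hwn).trans (pow_rootMultiplicity_dvd (f 0) ρ)
    have hqne : q ≠ 0 := by
      rintro rfl
      rw [mul_zero] at hq
      exact hfne 0 hq
    have hqd : q.natDegree = 0 := by
      have e1 := congrArg natDegree hq
      rw [natDegree_mul (pow_ne_zero _ (X_sub_C_ne_zero ρ)) hqne, natDegree_pow,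
        natDegree_X_sub_C, mul_one] at e1
      omega
    obtain ⟨c, rfl⟩ : ∃ c, q = C c := ⟨_, eq_C_of_natDegree_eq_zero hqd⟩
    have hc : c ≠ 0 := by
      rintro rfl
      exact hqne C_0
    have e2 : (derivative (f 0)).eval 0 = 0 := by
      rw [← coeff_zero_eq_eval_zero, coeff_derivative, h1]
      simp
    rw [hq] at e2
    simp only [derivative_mul, derivative_X_sub_C_pow, derivative_C, mul_zero, add_zero, eval_mul,
      eval_pow, eval_sub, eval_X, eval_C, zero_sub] at e2
    have e3 : ((wt 0 : ℕ) : Ω) ≠ 0 := Nat.cast_ne_zero.mpr hwt0.ne'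
    exact mul_ne_zero (mul_ne_zero e3 (pow_ne_zero _ (neg_ne_zero.mpr hρ0))) hc e2
  intro i
  have e1 := congrArg natDegree (hb i)
  rw [natDegree_pow, natDegree_C_mul (hbne i), natDegree_pow, key, mul_zero] at e1
  exact (Nat.mul_eq_zero.mp e1).resolve_left hwt0.ne'

/-- Covers of complete intersections in a weighted projective space with arbitrary weights.
Here `L` is the function field of the cone and `L₀` a field below `L` over which the weight zero
quotients `x i ^ wt 0 / x 0 ^ wt i` are algebraic. -/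
theorem kummer_cones {k : Type v} [Field k] [Algebra ℂ k] [Algebra.EssFiniteType ℂ k]
    {L : Type u} [Field L] [Algebra ℂ L] [Algebra k L] [IsScalarTower ℂ k L]
    {N c s r : ℕ} (wt : Fin (N + 1) → ℕ) (hwt0 : 0 < wt 0) (hgcd : Finset.univ.gcd wt = 1)
    (x : Fin (N + 1) → L) (hx : ∀ i, x i ≠ 0)
    (G : Fin c → MvPolynomial (Fin (N + 1)) k)
    (hmin : RingHom.ker (MvPolynomial.aeval x : MvPolynomial (Fin (N + 1)) k →ₐ[k] L) ∈
      (Ideal.span (Set.range G)).minimalPrimes)
    (D : Fin (s + 1) → MvPolynomial (Fin (N + 1)) k) (hD : ∀ b, MvPolynomial.aeval x (D b) ≠ 0)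
    (e m : Fin (s + 1) → ℕ) (he : ∀ b, 0 < e b)
    (hdeg : ∀ b, MvPolynomial.weightedTotalDegree wt (D b) ≤ e b * m b)
    (w : Fin r → L) (q : Fin r → ℕ) (hq : ∀ a, 0 < q a) (n : Fin r → Fin (s + 1) → ℕ)
    (hw : ∀ a, w a ^ q a = ∏ b, MvPolynomial.aeval x (D b) ^ n a b)
    (hn : ∀ a b, q a ∣ e b * n a b)
    (hgen : IntermediateField.adjoin k (Set.range x ∪ Set.range w) = ⊤)
    (htype : (3 ∣ e 0 ∧ 1 ≤ m 0) ∨ (4 ∣ e 0 ∧ 1 ≤ m 0) ∨ (2 ∣ e 0 ∧ 2 ≤ m 0))
    (hK : ∑ j, MvPolynomial.weightedTotalDegree wt (G j) + ∑ b, (e b - 1) * m b ≤ ∑ i, wt i)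
    {L₀ : Type u} [Field L₀] [Algebra ℂ L₀] [Algebra L₀ L] [IsScalarTower ℂ L₀ L]
    (hL₀ : ∀ i, IsAlgebraic L₀ (x i ^ wt 0 / x 0 ^ wt i)) :
    SweptOutByEllipticCurves L₀ := by
  classical
  obtain ⟨K, i1, i2, i3, E, hE, φ, T, f, h1, hT, h2, hfwt, hf0, hfe, ⟨i, hi⟩⟩ :=
    kummer_param wt (κ := Unit) (fun _ => ⟨0, ⟨0, hwt0⟩⟩) G x hmin D hD e m he hdeg w q hq n hw hn
      hgen htype (by
        rw [Fintype.card_unit]
        omega)
  refine ⟨K, i1, i2, i3, E, hE, φ.comp (algebraMap L₀ L), ?_, ?_⟩
  · intro z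
    rw [RingHom.comp_apply, ← IsScalarTower.algebraMap_apply ℂ L₀ L]
    exact h1 z
  · by_contra hcon
    push Not at hcon
    -- the quotients are algebraic over `K`
    have hKE : Function.Injective (algebraMap K E.FunctionField) :=
      (algebraMap K E.FunctionField).injective
    choose σ hσ using hcon
    let σ' : L₀ →+* K :=
      { toFun := σ
        map_one' := hKE (by rw [hσ, map_one, map_one])
        map_mul' := fun a b => hKE (by rw [hσ, map_mul, map_mul, hσ, hσ])
        map_zero' := hKE (by rw [hσ, map_zero, map_zero])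
        map_add' := fun a b => hKE (by rw [hσ, map_add, map_add, hσ, hσ]) }
    have hcomp : (algebraMap K E.FunctionField).comp σ' = φ.comp (algebraMap L₀ L) := by
      ext a
      exact hσ a
    have halg : ∀ i, IsAlgebraic K (φ (x i ^ wt 0 / x 0 ^ wt i)) := fun i =>
      (hL₀ i).ringHom_of_comp_eq σ' φ σ'.injective hcomp
    -- pass to the algebraic closure of `K` in the function field
    let K' : IntermediateField K E.FunctionField := algebraicClosure K E.FunctionField
    have hK'alg : Algebra.IsAlgebraic K K' := algebraicClosure.isAlgebraic K E.FunctionField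
    have hT' : Transcendental K' T := fun h => hT (h.restrictScalars K)
    let b : Fin (N + 1) → K' := fun i =>
      ⟨φ (x i ^ wt 0 / x 0 ^ wt i), mem_algebraicClosure_iff.mpr (halg i)⟩
    have hrel : ∀ i, (f i).map (algebraMap K K') ^ wt 0 =
        C (b i) * (f 0).map (algebraMap K K') ^ wt i := by
      intro i
      have haev : ∀ P : K[X], Polynomial.aeval T (P.map (algebraMap K K')) =
          Polynomial.aeval T P := fun P => Polynomial.aeval_map_algebraMap K' T P
      have e2 : Polynomial.aeval T (f 0) ^ wt i ≠ 0 := by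
        rw [← h2]
        exact pow_ne_zero _ ((map_ne_zero_iff _ φ.injective).mpr (hx 0))
      have e1 : algebraMap K' E.FunctionField (b i) * Polynomial.aeval T (f 0) ^ wt i =
          Polynomial.aeval T (f i) ^ wt 0 := by
        change φ (x i ^ wt 0 / x 0 ^ wt i) * _ = _
        rw [map_div₀, map_pow, map_pow, h2, h2, div_mul_cancel₀ _ e2]
      have e3 : Polynomial.aeval T ((f i).map (algebraMap K K') ^ wt 0 -
          C (b i) * (f 0).map (algebraMap K K') ^ wt i) = 0 := by
        rw [map_sub, map_mul, map_pow, map_pow, aeval_C, haev, haev, e1, sub_self]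
      exact sub_eq_zero.mp ((transcendental_iff.mp hT') _ e3)
    have hch : CharZero K := charZero_of_injective_algebraMap (algebraMap ℂ K).injective
    have hch' : CharZero K' := charZero_of_injective_algebraMap (algebraMap K K').injective
    have hKK' : Function.Injective (algebraMap K K') := (algebraMap K K').injective
    have hΩ : Function.Injective (algebraMap K' (AlgebraicClosure K')) :=
      (algebraMap K' (AlgebraicClosure K')).injective
    have := const_of_relations (Ω := AlgebraicClosure K')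
      (fun i => ((f i).map (algebraMap K K')).map (algebraMap K' (AlgebraicClosure K')))
      wt hwt0 hgcd
      (natDegree_map_le.trans (natDegree_map_le.trans (hfwt 0)))
      (by
        intro i
        rw [coeff_map, coeff_map]
        exact (map_ne_zero_iff _ hΩ).mpr ((map_ne_zero_iff _ hKK').mpr (hf0 i (hx i))))
      (by
        have h3 := hfe ()
        simp only [zero_add] at h3
        rw [coeff_map, coeff_map, h3, map_zero, map_zero])
      (fun i => algebraMap K' (AlgebraicClosure K') (b i))
      (by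
        intro i
        rw [← Polynomial.map_pow, hrel, Polynomial.map_mul, Polynomial.map_pow, map_C]) i
    rw [natDegree_map_eq_of_injective hΩ, natDegree_map_eq_of_injective hKK'] at this
    exact hi this

end MP501976
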